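import Mathlib
import Pool.Agent.Dob.Field

set_option autoImplicit false

/-!
# Changing one value of a Dobbertin APN function

`K` is a field with `2 ^ (5 k)` elements, `k ≥ 2`, and `F(x) = x ^ d` with
`d = 2 ^ (4 k) + 2 ^ (3 k) + 2 ^ (2 k) + 2 ^ k - 1` is the Dobbertin function.

The number of ordered representations of every point of `K × K` as a sum of three points of the
graph of `F` is congruent to `2` modulo `4`. Hence no function at Hamming distance one from `F`,
or from a function CCZ-equivalent to `F`, is APN. That `F` is APN (Dobbertin's theorem) is not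
used.
-/

namespace Pool.Agent.Results.MP_027baa_co.DobbertinFunctions

open Finset

/-- Almost perfect nonlinear functions on a finite field of characteristic 2. -/
def APN {K : Type} [Field K] [Fintype K] [DecidableEq K] (F : K → K) : Prop :=
  ∀ a b : K, a ≠ 0 → (univ.filter (fun x : K => F (x + a) + F x = b)).card ≤ 2

/-- The Dobbertin function (a power function). -/
def dobbertin (k : ℕ) (K : Type) [Field K] : K → K :=
  fun x => x ^ (2 ^ (4 * k) + 2 ^ (3 * k) + 2 ^ (2 * k) + 2 ^ k - 1)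

/-- `F` and `G` are CCZ-equivalent: an additive bijection of `K × K` followed by a translation
maps the graph of `F` into (hence onto) the graph of `G`. -/
def CCZ {K : Type} [Field K] (F G : K → K) : Prop :=
  ∃ (A : (K × K) ≃+ (K × K)) (c : K × K), ∀ x : K, ∃ y : K, A (x, F x) + c = (y, G y)

/-- `G` and `G'` differ at exactly one point. -/
def DistOne {K : Type} (G G' : K → K) : Prop :=
  ∃ c : K, G' c ≠ G c ∧ ∀ x : K, x ≠ c → G' x = G x

/-- The number of ordered triples `(x, y, z)` with `x + y + z = s` and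
`F(x) + F(y) + F(z) = t`. -/
def reps {K : Type} [Field K] [Fintype K] [DecidableEq K] (F : K → K) (s t : K) : ℕ :=
  ((univ : Finset (K × K × K)).filter
    (fun p => p.1 + p.2.1 + p.2.2 = s ∧ F p.1 + F p.2.1 + F p.2.2 = t)).card

/-- The graph of `F` is a Sidon set. -/
def Sid {K : Type} [Field K] (F : K → K) : Prop :=
  ∀ x y z w : K, x + y + z + w = 0 → F x + F y + F z + F w = 0 → x = y ∨ x = z ∨ x = w

variable {K : Type} [Field K] [Fintype K] [DecidableEq K]

theorem sid_of_apn [CharP K 2] (F : K → K) (h : APN F) : Sid F := by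
  intro x y z w h1 h2
  by_contra hno
  push Not at hno
  obtain ⟨hxy, hxz, hxw⟩ := hno
  have ha : x + y ≠ 0 := fun h' => hxy (CharTwo.add_eq_zero.mp h')
  have hyz : y ≠ z := by
    intro h'
    apply hxw
    rw [← h', CharTwo.add_cancel_right] at h1
    exact CharTwo.add_eq_zero.mp h1
  have e1 : x + (x + y) = y := CharTwo.add_cancel_left x y
  have e2 : y + (x + y) = x := by
    rw [add_comm x y]; exact CharTwo.add_cancel_left y x
  have e3 : z + (x + y) = w := by
    have : x + y + z = w := CharTwo.add_eq_zero.mp h1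
    rw [← this]; ring
  have e4 : F w + F z = F x + F y := by
    have : F x + F y + F z = F w := CharTwo.add_eq_zero.mp h2
    rw [← this, CharTwo.add_cancel_right]
  have hsub : ({x, y, z} : Finset K) ⊆
      univ.filter (fun u : K => F (u + (x + y)) + F u = F x + F y) := by
    intro u hu
    simp only [Finset.mem_insert, Finset.mem_singleton] at hu
    rw [Finset.mem_filter]
    refine ⟨Finset.mem_univ _, ?_⟩
    rcases hu with rfl | rfl | rfl
    · rw [e1]; ring
    · rw [e2]
    · rw [e3]; exact e4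
  have hc := Finset.card_le_card hsub
  rw [Finset.card_insert_of_notMem, Finset.card_insert_of_notMem, Finset.card_singleton] at hc
  · have := h (x + y) (F x + F y) ha
    omega
  · simpa using hyz
  · simp only [Finset.mem_insert, Finset.mem_singleton, not_or]
    exact ⟨hxy, hxz⟩

theorem reps_zero [CharP K 2] (F : K → K)
    (hS : ∀ x y z : K, x + y + z = 0 → F x + F y + F z = 0 → x = y ∨ x = z ∨ x = 0)
    (h0 : F 0 = 0) :
    reps F 0 0 + 2 = 3 * Fintype.card K := by
  have hset : (univ : Finset (K × K × K)).filter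
      (fun p => p.1 + p.2.1 + p.2.2 = 0 ∧ F p.1 + F p.2.1 + F p.2.2 = 0) =
      (univ.image (fun y : K => ((0 : K), y, y))) ∪
      (((univ.erase (0 : K)).image (fun x : K => (x, (0 : K), x))) ∪
      ((univ.erase (0 : K)).image (fun x : K => (x, x, (0 : K))))) := by
    ext ⟨x, y, z⟩
    simp only [Finset.mem_filter, Finset.mem_univ, true_and, Finset.mem_union, Finset.mem_image,
      Finset.mem_erase, and_true, Prod.mk.injEq, ne_eq]
    constructor
    · rintro ⟨h1, h2⟩
      by_cases hx : x = 0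
      · left
        subst hx
        rw [zero_add] at h1
        exact ⟨y, rfl, rfl, CharTwo.add_eq_zero.mp h1⟩
      · right
        have h3 := hS x y z h1 h2
        rcases h3 with h | h | h
        · right
          subst h
          rw [CharTwo.add_self_eq_zero, zero_add] at h1
          exact ⟨x, hx, rfl, rfl, h1.symm⟩
        · left
          subst h
          rw [add_comm x y, CharTwo.add_cancel_right] at h1
          exact ⟨x, hx, rfl, h1.symm, rfl⟩
        · exact absurd h hx
    · rintro (⟨a, h1, h2, h3⟩ | ⟨a, _, h1, h2, h3⟩ | ⟨a, _, h1, h2, h3⟩)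
      · subst h1; subst h2; subst h3
        exact ⟨by rw [zero_add, CharTwo.add_self_eq_zero],
          by rw [h0, zero_add, CharTwo.add_self_eq_zero]⟩
      · subst h1; subst h2; subst h3
        exact ⟨by rw [add_zero, CharTwo.add_self_eq_zero],
          by rw [h0, add_zero, CharTwo.add_self_eq_zero]⟩
      · subst h1; subst h2; subst h3
        exact ⟨by rw [add_zero, CharTwo.add_self_eq_zero],
          by rw [h0, add_zero, CharTwo.add_self_eq_zero]⟩
  unfold reps
  rw [hset, Finset.card_union_of_disjoint, Finset.card_union_of_disjoint,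
    Finset.card_image_of_injective, Finset.card_image_of_injective,
    Finset.card_image_of_injective, Finset.card_erase_of_mem (Finset.mem_univ _),
    Finset.card_univ]
  · have : 1 ≤ Fintype.card K := Fintype.card_pos
    omega
  · intro a b h
    exact (Prod.mk.inj h).1
  · intro a b h
    exact (Prod.mk.inj h).1
  · intro a b h
    exact (Prod.mk.inj (Prod.mk.inj h).2).1
  · rw [Finset.disjoint_left]
    rintro ⟨x, y, z⟩ h1 h2
    simp only [Finset.mem_image, Finset.mem_erase, Finset.mem_univ, and_true, Prod.mk.injEq,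
      ne_eq] at h1 h2
    obtain ⟨a, ha, h3, h4, h5⟩ := h1
    obtain ⟨b, hb, h6, h7, h8⟩ := h2
    exact hb (h7.trans h4.symm)
  · rw [Finset.disjoint_left]
    rintro ⟨x, y, z⟩ h1 h2
    simp only [Finset.mem_image, Finset.mem_erase, Finset.mem_univ, true_and, and_true,
      Prod.mk.injEq, ne_eq, Finset.mem_union] at h1 h2
    obtain ⟨a, h3, h4, h5⟩ := h1
    rcases h2 with ⟨b, hb, h6, _⟩ | ⟨b, hb, h6, _⟩
    · exact hb (h6.trans h3.symm)
    · exact hb (h6.trans h3.symm)

/-- `F` is the square of the auxiliary power function. -/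
theorem dob_sq (k : ℕ) (hk : 2 ≤ k) (hK : Fintype.card K = 2 ^ (5 * k)) (x : K) :
    dobbertin k K x = (x ^ Dob.dp k) ^ 2 := by
  unfold dobbertin
  have hQ : 1 ≤ 2 ^ k := Nat.one_le_two_pow
  by_cases hx : x = 0
  · subst hx
    rw [zero_pow, zero_pow, zero_pow]
    · norm_num
    · unfold Dob.dp
      have h1 : 2 ≤ Dob.nu k * 2 ^ (5 * k - 1) := by
        calc 2 = 1 * 2 ^ 1 := by norm_num
          _ ≤ Dob.nu k * 2 ^ (5 * k - 1) :=
            Nat.mul_le_mul (Dob.nu_pos k) (Nat.pow_le_pow_right (by norm_num) (by omega))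
      omega
    · have h1 : 2 ≤ 2 ^ (4 * k) := by
        calc 2 = 2 ^ 1 := by norm_num
          _ ≤ 2 ^ (4 * k) := Nat.pow_le_pow_right (by norm_num) (by omega)
      have h2 : 0 < 2 ^ (3 * k) := by positivity
      have h3 : 0 < 2 ^ (2 * k) := by positivity
      omega
  · have hx2 : x ^ 2 ≠ 0 := pow_ne_zero 2 hx
    apply mul_right_cancel₀ hx2
    rw [← pow_add, ← pow_mul, ← pow_add]
    have e1 : 2 ^ (4 * k) + 2 ^ (3 * k) + 2 ^ (2 * k) + 2 ^ k - 1 + 2 = Dob.nu k := by
      unfold Dob.nu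
      rw [show 4 * k = k * 4 by ring, show 3 * k = k * 3 by ring, show 2 * k = k * 2 by ring,
        pow_mul, pow_mul, pow_mul]
      omega
    have e2 : Dob.dp k * 2 + 2 = 2 ^ (5 * k) * Dob.nu k := by
      unfold Dob.dp
      have h1 : 1 ≤ Dob.nu k * 2 ^ (5 * k - 1) :=
        Nat.succ_le_of_lt (Nat.mul_pos (Dob.nu_pos k) (by positivity))
      have h2 : 2 ^ (5 * k) = 2 ^ (5 * k - 1) * 2 := by
        rw [← pow_succ, Nat.sub_add_cancel (by omega)]
      rw [h2]
      have h3 : (Dob.nu k * 2 ^ (5 * k - 1) - 1) * 2 + 2 = Dob.nu k * 2 ^ (5 * k - 1) * 2 := by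
        omega
      rw [h3]; ring
    rw [e1, e2, pow_mul, ← hK, FiniteField.pow_card]

theorem reps_sq [CharP K 2] (k : ℕ) (hk : 2 ≤ k) (hK : Fintype.card K = 2 ^ (5 * k)) (s t : K) :
    reps (dobbertin k K) s (t ^ 2) = Dob.TN (fun x : K => x ^ Dob.dp k) s t := by
  unfold reps Dob.TN
  congr 1
  apply Finset.filter_congr
  rintro ⟨x, y, z⟩ _
  simp only [dob_sq k hk hK]
  rw [← CharTwo.add_sq, ← CharTwo.add_sq]
  have : ∀ a b : K, a ^ 2 = b ^ 2 ↔ a = b := by
    intro a b
    constructor
    · intro h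
      have h1 : (a + b) ^ 2 = 0 := by rw [CharTwo.add_sq, h, CharTwo.add_self_eq_zero]
      exact CharTwo.add_eq_zero.mp (pow_eq_zero_iff (two_ne_zero) |>.mp h1)
    · rintro rfl; rfl
  rw [this]

/-- `z ^ d + (z + 1) ^ d = 1` only for `z = 0, 1`. -/
theorem dob_one [CharP K 2] (k : ℕ) (hK : Fintype.card K = 2 ^ (5 * k)) (z : K)
    (hz : dobbertin k K z + dobbertin k K (z + 1) = 1) : z = 0 ∨ z = 1 := by
  by_contra hno
  push Not at hno
  obtain ⟨hz0, hz1⟩ := hno
  have hz1' : z + 1 ≠ 0 := fun h => hz1 (CharTwo.add_eq_zero.mp h)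
  set Q := 2 ^ k with hQ
  -- the norm
  have hnorm : ∀ x : K, dobbertin k K x * x ^ 2 = x ^ Dob.nu k := by
    intro x
    unfold dobbertin
    rw [← pow_add]
    congr 1
    unfold Dob.nu
    have h1 : 1 ≤ 2 ^ k := Nat.one_le_two_pow
    rw [show 4 * k = k * 4 by ring, show 3 * k = k * 3 by ring, show 2 * k = k * 2 by ring,
      pow_mul, pow_mul, pow_mul]
    omega
  have hfix : ∀ x : K, (x ^ Dob.nu k) ^ Q = x ^ Dob.nu k := by
    intro x
    have h5 : x ^ (Q ^ 5) = x := by
      have : Q ^ 5 = Fintype.card K := by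
        rw [hK, hQ, ← pow_mul, mul_comm]
      rw [this, FiniteField.pow_card]
    have e1 : (x ^ Dob.nu k) ^ Q = x ^ Q * x ^ (Q ^ 2) * x ^ (Q ^ 3) * x ^ (Q ^ 4) *
        x ^ (Q ^ 5) := by
      rw [← pow_mul, ← pow_add, ← pow_add, ← pow_add, ← pow_add]
      congr 1
      unfold Dob.nu
      rw [← hQ]; ring
    have e2 : x ^ Dob.nu k = x * x ^ Q * x ^ (Q ^ 2) * x ^ (Q ^ 3) * x ^ (Q ^ 4) := by
      have : x * x ^ Q * x ^ (Q ^ 2) * x ^ (Q ^ 3) * x ^ (Q ^ 4) =
          x ^ 1 * x ^ Q * x ^ (Q ^ 2) * x ^ (Q ^ 3) * x ^ (Q ^ 4) := by rw [pow_one]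
      rw [this, ← pow_add, ← pow_add, ← pow_add, ← pow_add]
      rfl
    rw [e1, h5, e2]; ring
  set α := z ^ Dob.nu k with hα
  set β := (z + 1) ^ Dob.nu k with hβ
  have hαQ : α ^ Q = α := hfix z
  have hβQ : β ^ Q = β := hfix (z + 1)
  -- the quadratic equation for `z ^ 2`
  have hquad : α * (z ^ 2 + 1) + β * z ^ 2 = z ^ 2 * (z ^ 2 + 1) := by
    have e : (z + 1) ^ 2 = z ^ 2 + 1 := by rw [CharTwo.add_sq, one_pow]
    have h1 := hnorm z
    have h2 := hnorm (z + 1)
    rw [e] at h2
    rw [← hα] at h1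
    rw [← hβ] at h2
    rw [← h1, ← h2]
    calc dobbertin k K z * z ^ 2 * (z ^ 2 + 1) + dobbertin k K (z + 1) * (z ^ 2 + 1) * z ^ 2
        = (dobbertin k K z + dobbertin k K (z + 1)) * (z ^ 2 * (z ^ 2 + 1)) := by ring
      _ = z ^ 2 * (z ^ 2 + 1) := by rw [hz, one_mul]
  set w := z ^ 2 with hw
  -- Frobenius of order `Q`
  have hadd : ∀ x y : K, (x + y) ^ Q = x ^ Q + y ^ Q := fun x y => add_pow_char_pow x y 2 k
  have hw5 : w ^ (Q ^ 5) = w := by
    have : Q ^ 5 = Fintype.card K := by
      rw [hK, hQ, ← pow_mul, mul_comm]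
    rw [this, FiniteField.pow_card]
  have hquadQ : α * (w ^ Q + 1) + β * w ^ Q = w ^ Q * (w ^ Q + 1) := by
    have h := congrArg (fun x => x ^ Q) hquad
    simp only [hadd, mul_pow, one_pow, hαQ, hβQ] at h
    exact h
  have hwQ : w ^ Q = w := by
    by_contra hne
    -- the sum of the two roots
    have hne' : w ^ Q - w ≠ 0 := sub_ne_zero.mpr hne
    have hsum : w ^ Q = α + β - 1 - w := by
      have h1 : (w ^ Q - w) * (w ^ Q - (α + β - 1 - w)) = 0 := by
        linear_combination hquad - hquadQ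
      rcases mul_eq_zero.mp h1 with h | h
      · exact absurd h hne'
      · exact sub_eq_zero.mp h
    have hsub : ∀ x y : K, (x - y) ^ Q = x ^ Q - y ^ Q := by
      intro x y
      rw [CharTwo.sub_eq_add, CharTwo.sub_eq_add, hadd]
    have h2 : (w ^ Q) ^ Q = w := by
      have h3 : (w ^ Q) ^ Q = α + β - 1 - w ^ Q := by
        conv_lhs => rw [hsum]
        rw [hsub, hsub, hadd, hαQ, hβQ, one_pow]
      rw [h3, hsum]; ring
    apply hne
    have h4 : w ^ (Q ^ 5) = w ^ Q := by
      have e : Q ^ 5 = Q * Q * (Q * Q) * Q := by ring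
      have h2' : w ^ (Q * Q) = w := by rw [pow_mul]; exact h2
      rw [e, pow_mul, pow_mul, h2', h2']
    rw [← h4, hw5]
  have hzQ : z ^ Q = z := by
    have h1 : (z ^ Q + z) ^ 2 = 0 := by
      rw [CharTwo.add_sq, ← pow_mul, mul_comm Q 2, pow_mul, ← hw, hwQ,
        CharTwo.add_self_eq_zero]
    exact CharTwo.add_eq_zero.mp (pow_eq_zero_iff (two_ne_zero) |>.mp h1)
  have hpow5 : ∀ x : K, x ^ Q = x → x ^ Dob.nu k = x ^ 5 := by
    intro x hx
    have e2 : x ^ Dob.nu k = x * x ^ Q * x ^ (Q ^ 2) * x ^ (Q ^ 3) * x ^ (Q ^ 4) := by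
      have : x * x ^ Q * x ^ (Q ^ 2) * x ^ (Q ^ 3) * x ^ (Q ^ 4) =
          x ^ 1 * x ^ Q * x ^ (Q ^ 2) * x ^ (Q ^ 3) * x ^ (Q ^ 4) := by rw [pow_one]
      rw [this, ← pow_add, ← pow_add, ← pow_add, ← pow_add]
      rfl
    have e3 : x ^ (Q ^ 2) = x := by rw [pow_two, pow_mul, hx, hx]
    have e4 : x ^ (Q ^ 3) = x := by rw [pow_succ, pow_mul, e3, hx]
    have e5 : x ^ (Q ^ 4) = x := by rw [pow_succ, pow_mul, e4, hx]
    rw [e2, hx, e3, e4, e5]; ring
  have hα5 : α = z ^ 5 := hpow5 z hzQ
  have hβ5 : β = (z + 1) ^ 5 := hpow5 (z + 1) (by rw [hadd, hzQ, one_pow])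
  rw [hα5, hβ5, hw] at hquad
  have e : z ^ 2 + 1 = (z + 1) ^ 2 := by rw [CharTwo.add_sq, one_pow]
  rw [e] at hquad
  -- divide by `z ^ 2 (z + 1) ^ 2`
  have h6 : (z ^ 2 * (z + 1) ^ 2) * (z ^ 3 + (z + 1) ^ 3 - 1) = 0 := by
    linear_combination hquad
  have h7 : z ^ 3 + (z + 1) ^ 3 - 1 = 0 := by
    rcases mul_eq_zero.mp h6 with h | h
    · exact absurd h (mul_ne_zero (pow_ne_zero 2 hz0) (pow_ne_zero 2 hz1'))
    · exact h
  have two0 : (2 : K) = 0 := CharTwo.two_eq_zero
  have h8 : z * (z + 1) = 0 := by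
    linear_combination h7 + (-z ^ 3 - z ^ 2 - z) * two0
  rcases mul_eq_zero.mp h8 with h | h
  · exact hz0 h
  · exact hz1' h

/-- the zero-sum planes through the origin are degenerate -/
theorem dob_zero [CharP K 2] (k : ℕ) (hK : Fintype.card K = 2 ^ (5 * k))
    (x y z : K) (h1 : x + y + z = 0)
    (h2 : dobbertin k K x + dobbertin k K y + dobbertin k K z = 0) : x = y ∨ x = z ∨ x = 0 := by
  by_cases hx : x = 0
  · right; right; exact hx
  have hz : z = x + y := (CharTwo.add_eq_zero.mp h1).symm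
  have hmul : ∀ a b : K, dobbertin k K (a * b) = dobbertin k K a * dobbertin k K b := by
    intro a b; unfold dobbertin; rw [mul_pow]
  have hd1 : dobbertin k K (1 : K) = 1 := by unfold dobbertin; rw [one_pow]
  have hdx : dobbertin k K x ≠ 0 := by unfold dobbertin; exact pow_ne_zero _ hx
  have hy : y = x * (y / x) := by field_simp
  have hxy : x + y = x * (y / x + 1) := by field_simp; ring
  have h3 : dobbertin k K (y / x) + dobbertin k K (y / x + 1) = 1 := by
    have e : dobbertin k K x * (1 + dobbertin k K (y / x) + dobbertin k K (y / x + 1)) = 0 := by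
      rw [mul_add, mul_add, mul_one, ← hmul, ← hmul, ← hy, ← hxy, ← hz]
      exact h2
    rcases mul_eq_zero.mp e with h | h
    · exact absurd h hdx
    · rw [add_assoc] at h
      exact (CharTwo.add_eq_zero.mp h).symm
  rcases dob_one k hK (y / x) h3 with h | h
  · right; left
    rw [hz, hy, h, mul_zero, add_zero]
  · left
    rw [hy, h, mul_one]

theorem off_graph [CharP K 2] (k : ℕ) (hk : 2 ≤ k) (hK : Fintype.card K = 2 ^ (5 * k))
    (s t : K) : reps (dobbertin k K) s t % 4 = 2 := by
  -- `t` is a square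
  have ht : ∃ t' : K, t = t' ^ 2 := by
    refine ⟨t ^ (2 ^ (5 * k - 1)), ?_⟩
    rw [← pow_mul, ← pow_succ, Nat.sub_add_cancel (by omega), ← hK, FiniteField.pow_card]
  obtain ⟨t', rfl⟩ := ht
  have h1 := Dob.TN_mod (K := K) k hk hK s t' 0 0
  rw [← reps_sq k hk hK, ← reps_sq k hk hK] at h1
  have h0 : dobbertin k K 0 = 0 := by
    rw [dob_sq k hk hK, zero_pow]
    · norm_num
    · unfold Dob.dp
      have h1 : 2 ≤ Dob.nu k * 2 ^ (5 * k - 1) := by
        calc 2 = 1 * 2 ^ 1 := by norm_num
          _ ≤ Dob.nu k * 2 ^ (5 * k - 1) :=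
            Nat.mul_le_mul (Dob.nu_pos k) (Nat.pow_le_pow_right (by norm_num) (by omega))
      omega
  have h2 := reps_zero (dobbertin k K) (dob_zero k hK) h0
  rw [show (0 : K) ^ 2 = 0 by norm_num] at h1
  have h3 : 4 ∣ Fintype.card K := by
    rw [hK]
    exact Dvd.dvd.trans (by norm_num : 4 ∣ 2 ^ 2) (pow_dvd_pow 2 (by omega))
  omega

theorem result (k : ℕ) (hk : 2 ≤ k) (K : Type) [Field K] [Fintype K] [DecidableEq K]
    (hK : Fintype.card K = 2 ^ (5 * k)) :
    (∀ s t : K, reps (dobbertin k K) s t % 4 = 2) ∧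
    (∀ G G' : K → K, CCZ (dobbertin k K) G → DistOne G G' → ¬ APN G') := by
  have hchar : CharP K 2 := by
    have : Fact (Nat.Prime 2) := ⟨Nat.prime_two⟩
    exact charP_of_card_eq_prime_pow hK
  refine ⟨off_graph k hk hK, ?_⟩
  rintro G G' ⟨A, c, hA⟩ ⟨u, hu1, hu2⟩ hG'
  have hGS' := sid_of_apn G' hG'
  have hdd : ∀ v : K × K, v + v = 0 := by
    rintro ⟨a, b⟩
    exact Prod.ext (CharTwo.add_self_eq_zero a) (CharTwo.add_self_eq_zero b)
  -- the new point is a sum of three points of the graph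
  obtain ⟨⟨s, t⟩, hst⟩ := A.surjective ((u, G' u) + c)
  have hpos : reps (dobbertin k K) s t ≠ 0 := by
    intro h
    have := off_graph k hk hK s t
    rw [h] at this
    norm_num at this
  obtain ⟨⟨x, y, z⟩, hp⟩ := Finset.card_pos.mp (Nat.pos_of_ne_zero hpos)
  rw [Finset.mem_filter] at hp
  obtain ⟨-, h1, h2⟩ := hp
  obtain ⟨x', hx'⟩ := hA x
  obtain ⟨y', hy'⟩ := hA y
  obtain ⟨z', hz'⟩ := hA z
  have hsum : ((x', G x') : K × K) + (y', G y') + (z', G z') = (u, G' u) := by
    rw [← hx', ← hy', ← hz']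
    have e : A (x, dobbertin k K x) + c + (A (y, dobbertin k K y) + c) +
        (A (z, dobbertin k K z) + c) =
        A ((x, dobbertin k K x) + (y, dobbertin k K y) + (z, dobbertin k K z)) +
          ((c + c) + c) := by
      simp only [map_add]; abel
    have e2 : ((x, dobbertin k K x) : K × K) + (y, dobbertin k K y) + (z, dobbertin k K z) =
        (s, t) := Prod.ext h1 h2
    rw [e, e2, hst, hdd, zero_add, add_assoc, hdd, add_zero]
  have h3 : x' + y' + z' = u := congrArg Prod.fst hsum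
  have h4 : G x' + G y' + G z' = G' u := congrArg Prod.snd hsum
  -- the three points are different from `u` and from each other
  have hxy : x' ≠ y' := by
    rintro rfl
    rw [CharTwo.add_self_eq_zero, zero_add] at h3 h4
    subst h3
    exact hu1 h4.symm
  have hxz : x' ≠ z' := by
    rintro rfl
    rw [add_comm x' y', CharTwo.add_cancel_right] at h3
    rw [add_comm (G x') (G y'), CharTwo.add_cancel_right] at h4
    subst h3
    exact hu1 h4.symm
  have hyz : y' ≠ z' := by
    rintro rfl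
    rw [CharTwo.add_cancel_right] at h3 h4
    subst h3
    exact hu1 h4.symm
  have hxu : x' ≠ u := by
    intro h
    apply hyz
    have h5 : y' + z' = 0 := by
      have : x' + (y' + z') = x' + 0 := by rw [← add_assoc, h3, h, add_zero]
      exact add_left_cancel this
    exact CharTwo.add_eq_zero.mp h5
  have hyu : y' ≠ u := by
    intro h
    apply hxz
    have h5 : x' + z' = 0 := by
      have : y' + (x' + z') = y' + 0 := by
        rw [add_zero, ← add_assoc, add_comm y' x', h3, h]
      exact add_left_cancel this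
    exact CharTwo.add_eq_zero.mp h5
  have hzu : z' ≠ u := by
    intro h
    apply hxy
    have h5 : x' + y' = 0 := by
      have : z' + (x' + y') = z' + 0 := by
        rw [add_zero, add_comm z' (x' + y'), h3, h]
      exact add_left_cancel this
    exact CharTwo.add_eq_zero.mp h5
  have h5 := hGS' x' y' z' u (by rw [h3, CharTwo.add_self_eq_zero])
    (by rw [hu2 x' hxu, hu2 y' hyu, hu2 z' hzu, h4, CharTwo.add_self_eq_zero])
  rcases h5 with h | h | h
  · exact hxy h
  · exact hxz h
  · exact hxu h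

end Pool.Agent.Results.MP_027baa_co.DobbertinFunctions
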