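import Mathlib

set_option autoImplicit false

namespace Pool.Agent.Results.MP_027baa_co.LinearStructures

open Finset

/-- `F` is almost perfect nonlinear. -/
def APN {n : ℕ} (F : (Fin n → ZMod 2) → (Fin n → ZMod 2)) : Prop :=
  ∀ a b : Fin n → ZMod 2, a ≠ 0 →
    (Finset.univ.filter (fun x : Fin n → ZMod 2 => F (x + a) + F x = b)).card ≤ 2

/-- The component function `x ↦ u · F(x)`. -/
def comp {n : ℕ} (F : (Fin n → ZMod 2) → (Fin n → ZMod 2)) (u : Fin n → ZMod 2) :
    (Fin n → ZMod 2) → ZMod 2 :=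
  fun x => u ⬝ᵥ F x

/-- The Boolean function `f` has a nonzero linear structure: a direction `a ≠ 0` along which its
derivative is constant. -/
def HasLinearStructure {n : ℕ} (f : (Fin n → ZMod 2) → ZMod 2) : Prop :=
  ∃ a : Fin n → ZMod 2, a ≠ 0 ∧ ∃ k : ZMod 2, ∀ x, f (x + a) + f x = k

/-- The Boolean function `f` has algebraic degree at most two. -/
def DegLeTwo {n : ℕ} (f : (Fin n → ZMod 2) → ZMod 2) : Prop :=
  ∃ p : MvPolynomial (Fin n) (ZMod 2), p.totalDegree ≤ 2 ∧ ∀ x, MvPolynomial.eval x p = f x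

/-- The character of `ZMod 2`, i.e. `z ↦ (-1)^z`. -/
def chi (z : ZMod 2) : ℤ := if z = 0 then 1 else -1

/-- The Walsh transform of a Boolean function. -/
def walsh {n : ℕ} (f : (Fin n → ZMod 2) → ZMod 2) (w : Fin n → ZMod 2) : ℤ :=
  ∑ x, chi (f x + w ⬝ᵥ x)

/-- The Boolean function `f` is plateaued: its Walsh transform takes only the values
`0, l, -l` for one integer `l`. -/
def Plateaued {n : ℕ} (f : (Fin n → ZMod 2) → ZMod 2) : Prop :=
  ∃ l : ℤ, ∀ w, walsh f w = 0 ∨ walsh f w = l ∨ walsh f w = -l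

/-- `F` and `F'` are CCZ-equivalent: an affine permutation of `F_2^n × F_2^n` maps the graph of
`F` onto the graph of `F'`. -/
def CCZ {n : ℕ} (F F' : (Fin n → ZMod 2) → (Fin n → ZMod 2)) : Prop :=
  ∃ (L : ((Fin n → ZMod 2) × (Fin n → ZMod 2)) ≃+ ((Fin n → ZMod 2) × (Fin n → ZMod 2)))
    (t : (Fin n → ZMod 2) × (Fin n → ZMod 2)),
    ∀ y : Fin n → ZMod 2, ∃ x : Fin n → ZMod 2, (y, F' y) = L (x, F x) + t

theorem chi_add (a b : ZMod 2) : chi (a + b) = chi a * chi b := by
  revert a b; decide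

theorem chi_zero : chi 0 = 1 := by decide

theorem chi_one : chi 1 = -1 := by decide

theorem zmod2 (a : ZMod 2) : a = 0 ∨ a = 1 := by
  revert a; decide

theorem vadd_self {n : ℕ} (a : Fin n → ZMod 2) : a + a = 0 := by
  funext i; exact CharTwo.add_self_eq_zero _

theorem vadd_cancel {n : ℕ} (a b : Fin n → ZMod 2) : a + b + b = a := by
  rw [add_assoc, vadd_self, add_zero]

theorem sum_chi {A : Type*} [AddCommGroup A] [Fintype A] (φ : A →+ ZMod 2)
    (h : ∃ a, φ a ≠ 0) : ∑ a, chi (φ a) = 0 := by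
  obtain ⟨a, ha⟩ := h
  have ha1 : φ a = 1 := (zmod2 _).resolve_left ha
  have h1 : ∑ x, chi (φ x) = ∑ x, chi (φ (x + a)) :=
    (Equiv.sum_comp (Equiv.addRight a) (fun x => chi (φ x))).symm
  have h2 : ∑ x, chi (φ (x + a)) = - ∑ x, chi (φ x) := by
    rw [← Finset.sum_neg_distrib]
    refine Finset.sum_congr rfl fun x _ => ?_
    rw [map_add, chi_add, ha1, chi_one]; ring
  rw [h2] at h1
  linarith

/-- Half of the vectors satisfy a nontrivial linear equation. -/
theorem card_hyperplane {n : ℕ} (u : Fin n → ZMod 2) (hu : u ≠ 0) (k : ZMod 2) :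
    2 * (Finset.univ.filter (fun b : Fin n → ZMod 2 => u ⬝ᵥ b = k)).card =
      Fintype.card (Fin n → ZMod 2) := by
  obtain ⟨i, hi⟩ : ∃ i, u i ≠ 0 := by
    by_contra h
    push Not at h
    exact hu (funext h)
  have hi1 : u i = 1 := (zmod2 _).resolve_left hi
  have he : u ⬝ᵥ (Pi.single i 1 : Fin n → ZMod 2) = 1 := by
    rw [dotProduct_single, hi1, one_mul]
  have h1 : (Finset.univ.filter (fun b : Fin n → ZMod 2 => u ⬝ᵥ b = k)).card =
      (Finset.univ.filter (fun b : Fin n → ZMod 2 => ¬ u ⬝ᵥ b = k)).card := by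
    refine Finset.card_bij' (fun b _ => b + Pi.single i 1) (fun b _ => b + Pi.single i 1)
      ?_ ?_ ?_ ?_
    · intro b hb
      simp only [Finset.mem_filter, Finset.mem_univ, true_and] at hb ⊢
      rw [dotProduct_add, he, hb]
      have h0 : ∀ z : ZMod 2, ¬ z + 1 = z := by decide
      exact h0 k
    · intro b hb
      simp only [Finset.mem_filter, Finset.mem_univ, true_and] at hb ⊢
      rw [dotProduct_add, he]
      generalize u ⬝ᵥ b = z at hb
      revert z k; decide
    · intro b _
      exact vadd_cancel _ _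
    · intro b _
      exact vadd_cancel _ _
  have h2 := Finset.card_filter_add_card_filter_not (s := (Finset.univ : Finset (Fin n → ZMod 2)))
    (fun b : Fin n → ZMod 2 => u ⬝ᵥ b = k)
  rw [Finset.card_univ] at h2
  omega

/-- If the component `u · F` has the linear structure `a`, then the derivative of `F` in
direction `a` takes all values in an affine hyperplane. -/
theorem derivative_onto {n : ℕ} (F : (Fin n → ZMod 2) → (Fin n → ZMod 2)) (hF : APN F)
    (u a : Fin n → ZMod 2) (hu : u ≠ 0) (ha : a ≠ 0) (k : ZMod 2)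
    (hk : ∀ x, comp F u (x + a) + comp F u x = k) (b₀ : Fin n → ZMod 2) (hb₀ : u ⬝ᵥ b₀ = k) :
    ∃ y, F (y + a) + F y = b₀ := by
  by_contra hne
  push Not at hne
  have h1 : (Finset.univ : Finset (Fin n → ZMod 2)).card =
      ∑ b ∈ (Finset.univ.filter (fun b : Fin n → ZMod 2 => u ⬝ᵥ b = k)).erase b₀,
        (Finset.univ.filter (fun x : Fin n → ZMod 2 => F (x + a) + F x = b)).card := by
    refine Finset.card_eq_sum_card_fiberwise ?_
    intro x _
    simp only [Finset.coe_erase, Finset.coe_filter, Finset.mem_univ, true_and, Set.mem_sdiff,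
      Set.mem_ofPred_eq, Set.mem_singleton_iff]
    refine ⟨?_, hne x⟩
    rw [dotProduct_add]
    exact hk x
  have h2 : ∑ b ∈ (Finset.univ.filter (fun b : Fin n → ZMod 2 => u ⬝ᵥ b = k)).erase b₀,
        (Finset.univ.filter (fun x : Fin n → ZMod 2 => F (x + a) + F x = b)).card ≤
      ((Finset.univ.filter (fun b : Fin n → ZMod 2 => u ⬝ᵥ b = k)).erase b₀).card * 2 := by
    refine (Finset.sum_le_card_nsmul _ _ 2 fun b _ => hF a b ha).trans ?_
    rw [smul_eq_mul]
  have h3 : b₀ ∈ Finset.univ.filter (fun b : Fin n → ZMod 2 => u ⬝ᵥ b = k) := by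
    simp [hb₀]
  have h4 := Finset.card_erase_of_mem h3
  have h5 := card_hyperplane u hu k
  have h6 : 0 < (Finset.univ.filter (fun b : Fin n → ZMod 2 => u ⬝ᵥ b = k)).card :=
    Finset.card_pos.2 ⟨b₀, h3⟩
  rw [Finset.card_univ] at h1
  omega

/-- `F` reaches `(c, F c + v)` as the sum of three points of its graph. -/
def Reach {n : ℕ} (F : (Fin n → ZMod 2) → (Fin n → ZMod 2)) (c v : Fin n → ZMod 2) : Prop :=
  ∃ x y z : Fin n → ZMod 2, x ≠ y ∧ x ≠ z ∧ y ≠ z ∧ x + y + z = c ∧ F x + F y + F z = F c + v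

theorem reach_of_linear {n : ℕ} (F : (Fin n → ZMod 2) → (Fin n → ZMod 2)) (hF : APN F)
    (u v : Fin n → ZMod 2) (hu : u ≠ 0) (hv : v ≠ 0) (huv : u ⬝ᵥ v = 0)
    (hL : HasLinearStructure (comp F u)) (c : Fin n → ZMod 2) : Reach F c v := by
  obtain ⟨a, ha, k, hk⟩ := hL
  obtain ⟨y, hy⟩ := derivative_onto F hF u a hu ha k hk (F (c + a) + F c + v) (by
    rw [dotProduct_add, dotProduct_add, huv, add_zero]; exact hk c)
  refine ⟨c + a, y, y + a, ?_, ?_, ?_, ?_, ?_⟩
  · intro h
    rw [← h, vadd_cancel] at hy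
    apply hv
    have : F c + F (c + a) + (F c + F (c + a)) = v := by
      nth_rewrite 1 [hy]
      rw [show F (c + a) + F c + v + (F c + F (c + a)) =
        v + (F (c + a) + F (c + a)) + (F c + F c) by ring, vadd_self, vadd_self]; simp
    rw [← this, vadd_self]
  · intro h
    have h1 : c = y := by
      have := congrArg (· + a) h
      simpa [vadd_cancel] using this
    rw [← h1] at hy
    apply hv
    have : F (c + a) + F c + (F (c + a) + F c) = v := by
      nth_rewrite 1 [hy]
      rw [show F (c + a) + F c + v + (F (c + a) + F c) =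
        v + (F (c + a) + F (c + a)) + (F c + F c) by ring, vadd_self, vadd_self]; simp
    rw [← this, vadd_self]
  · intro h
    apply ha
    have : y + (y + a) = 0 := by rw [← h, vadd_self]
    rw [← add_assoc, vadd_self, zero_add] at this
    exact this
  · rw [show c + a + y + (y + a) = c + (a + a) + (y + y) by ring, vadd_self, vadd_self]; simp
  · rw [add_assoc, add_comm (F y), hy, show F (c + a) + (F (c + a) + F c + v) =
      F (c + a) + F (c + a) + (F c + v) by ring, vadd_self, zero_add]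


/-- All second derivatives of `f` are constant. -/
def SecondConst {n : ℕ} (f : (Fin n → ZMod 2) → ZMod 2) : Prop :=
  ∀ a b x y : Fin n → ZMod 2,
    f (x + a + b) + f (x + a) + (f (x + b) + f x) = f (y + a + b) + f (y + a) + (f (y + b) + f y)

theorem SecondConst.add {n : ℕ} {f g : (Fin n → ZMod 2) → ZMod 2} (hf : SecondConst f)
    (hg : SecondConst g) : SecondConst (fun x => f x + g x) := by
  intro a b x y
  have h1 := hf a b x y
  have h2 := hg a b x y
  linear_combination h1 + h2

theorem secondConst_const {n : ℕ} (k : ZMod 2) :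
    SecondConst (fun _ : Fin n → ZMod 2 => k) := by
  intro a b x y; rfl

theorem secondConst_sum {n : ℕ} {ι : Type*} (s : Finset ι)
    (f : ι → (Fin n → ZMod 2) → ZMod 2) (h : ∀ i ∈ s, SecondConst (f i)) :
    SecondConst (fun x => ∑ i ∈ s, f i x) := by
  classical
  induction s using Finset.induction_on with
  | empty => simpa using secondConst_const (n := n) 0
  | insert i s his ih =>
    have h1 := (h i (Finset.mem_insert_self i s)).add
      (ih fun j hj => h j (Finset.mem_insert_of_mem hj))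
    have h2 : (fun x => ∑ j ∈ insert i s, f j x) = fun x => f i x + ∑ j ∈ s, f j x := by
      funext x
      rw [Finset.sum_insert his]
    rw [h2]
    exact h1

theorem prod_multiset {n : ℕ} (s : Fin n →₀ ℕ) (x : Fin n → ZMod 2) :
    (s.prod fun i e => x i ^ e) = (s.toMultiset.map x).prod := by
  induction s using Finsupp.induction_linear with
  | zero => simp
  | add f g hf hg =>
    rw [Finsupp.prod_add_index', hf, hg]
    · simp
    · simp
    · intro i a b; exact pow_add _ _ _
  | single i e =>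
    rw [Finsupp.prod_single_index (by simp)]
    rw [Finsupp.toMultiset_single, Multiset.map_nsmul, Multiset.prod_nsmul]
    simp

theorem DegLeTwo.secondConst {n : ℕ} {f : (Fin n → ZMod 2) → ZMod 2} (h : DegLeTwo f) :
    SecondConst f := by
  obtain ⟨p, hp, hf⟩ := h
  have h1 : f = fun x => ∑ s ∈ p.support, MvPolynomial.eval x (MvPolynomial.monomial s (p.coeff s)) := by
    funext x
    rw [← hf x, ← map_sum]
    congr 1
    exact p.as_sum
  rw [h1]
  refine secondConst_sum _ _ fun s hs => ?_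
  have h2 : s.toMultiset.card ≤ 2 := by
    have h3 := MvPolynomial.le_totalDegree hs
    rw [Finsupp.card_toMultiset]
    exact h3.trans hp
  have h4 : ∀ x : Fin n → ZMod 2, MvPolynomial.eval x (MvPolynomial.monomial s (p.coeff s)) =
      p.coeff s * (s.toMultiset.map x).prod := by
    intro x
    rw [MvPolynomial.eval_monomial, prod_multiset]
  intro a b x y
  simp only [h4]
  generalize p.coeff s = k
  generalize s.toMultiset = m at h2
  have h5 : m.card = 0 ∨ m.card = 1 ∨ m.card = 2 := by omega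
  rcases h5 with h5 | h5 | h5
  · rw [Multiset.card_eq_zero] at h5
    subst h5
    simp
  · rw [Multiset.card_eq_one] at h5
    obtain ⟨i, rfl⟩ := h5
    simp only [Multiset.map_singleton, Multiset.prod_singleton, Pi.add_apply]
    have h6 : ∀ z : ZMod 2, z + z = 0 := by decide
    linear_combination h6 (k * x i) + h6 (k * x i) + h6 (k * a i) + h6 (k * b i) -
      (h6 (k * y i) + h6 (k * y i) + h6 (k * a i) + h6 (k * b i))
  · rw [Multiset.card_eq_two] at h5
    obtain ⟨i, j, rfl⟩ := h5
    simp only [Multiset.insert_eq_cons, Multiset.map_cons, Multiset.map_singleton,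
      Multiset.prod_cons, Multiset.prod_singleton, Pi.add_apply]
    generalize x i = x1
    generalize x j = x2
    generalize y i = y1
    generalize y j = y2
    generalize a i = a1
    generalize a j = a2
    generalize b i = b1
    generalize b j = b2
    have h6 : ∀ z : ZMod 2, z + z = 0 := by decide
    have h7 : ∀ k x1 x2 a1 a2 b1 b2 : ZMod 2,
        k * ((x1 + a1 + b1) * (x2 + a2 + b2)) + k * ((x1 + a1) * (x2 + a2)) +
          (k * ((x1 + b1) * (x2 + b2)) + k * (x1 * x2)) = k * (a1 * b2 + a2 * b1) := by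
      decide
    rw [h7, h7]


/-- The sum of the signs `(-1)^f(x)`. -/
def signSum {n : ℕ} (f : (Fin n → ZMod 2) → ZMod 2) : ℤ := ∑ x, chi (f x)

theorem chi_sq (z : ZMod 2) : chi z * chi z = 1 := by
  revert z; decide

/-- The square of the sign sum is a sum over derivatives. -/
theorem signSum_sq {n : ℕ} (f : (Fin n → ZMod 2) → ZMod 2) :
    signSum f * signSum f = ∑ a, ∑ x, chi (f (x + a) + f x) := by
  unfold signSum
  rw [Finset.sum_mul_sum, Finset.sum_comm (s := (Finset.univ : Finset (Fin n → ZMod 2)))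
    (f := fun a x => chi (f (x + a) + f x))]
  refine Finset.sum_congr rfl fun x _ => ?_
  rw [← Equiv.sum_comp (Equiv.addLeft x) (fun y => chi (f x) * chi (f y))]
  refine Finset.sum_congr rfl fun a _ => ?_
  rw [chi_add, mul_comm]
  rfl

/-- A quadratic Boolean function without nonzero linear structure is bent at the origin. -/
theorem signSum_sq_of_noLinear {n : ℕ} (f : (Fin n → ZMod 2) → ZMod 2) (hf : SecondConst f)
    (hL : ¬ HasLinearStructure f) : signSum f * signSum f = 2 ^ n := by
  rw [signSum_sq, Finset.sum_eq_single 0]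
  · have h1 : ∀ x : Fin n → ZMod 2, chi (f (x + 0) + f x) = 1 := by
      intro x
      rw [add_zero, chi_add, chi_sq]
    rw [Finset.sum_congr rfl fun x _ => h1 x]
    simp [ZMod.card]
  · intro a _ ha
    -- the derivative is not constant
    have h1 : ∃ x y, f (x + a) + f x ≠ f (y + a) + f y := by
      by_contra hcon
      push Not at hcon
      exact hL ⟨a, ha, f (0 + a) + f 0, fun x => hcon x 0⟩
    obtain ⟨x, y, hxy⟩ := h1
    have h2 : ∀ z, f (z + (x + y) + a) + f (z + (x + y)) = f (z + a) + f z + 1 := by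
      intro z
      have h3 := hf a (x + y) z y
      have e1 : y + a + (x + y) = x + a := by
        rw [show y + a + (x + y) = x + a + (y + y) by ring, vadd_self, add_zero]
      have e2 : y + (x + y) = x := by
        rw [show y + (x + y) = x + (y + y) by ring, vadd_self, add_zero]
      rw [e1, e2] at h3
      have e3 : z + a + (x + y) = z + (x + y) + a := by ring
      rw [e3] at h3
      have h4 : ∀ p q r s : ZMod 2, p + q + (r + s) = (q + s) + (p + r) := by decide
      have h5 : ∀ A B C D : ZMod 2, A ≠ C → A + C = 1 := by decide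
      have h6 : f (x + a) + f (y + a) + (f x + f y) = 1 := by
        have h7 := h5 (f (x + a) + f x) 0 (f (y + a) + f y) 0 hxy
        linear_combination h7
      have h8 : ∀ z : ZMod 2, z + z = 0 := by decide
      linear_combination h3 + h6 - h8 (f (z + a)) - h8 (f z)
    have h3 : ∑ z, chi (f (z + a) + f z) = - ∑ z, chi (f (z + a) + f z) := by
      conv_lhs => rw [← Equiv.sum_comp (Equiv.addRight (x + y)) (fun z => chi (f (z + a) + f z))]
      rw [← Finset.sum_neg_distrib]
      refine Finset.sum_congr rfl fun z _ => ?_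
      simp only [Equiv.coe_addRight]
      rw [h2, chi_add, chi_one]; ring
    linarith
  · intro h
    exact absurd (Finset.mem_univ _) h

/-- For `n` odd, every quadratic Boolean function has a nonzero linear structure. -/
theorem hasLinear_of_odd {n : ℕ} (hn : Odd n) (f : (Fin n → ZMod 2) → ZMod 2)
    (hf : SecondConst f) : HasLinearStructure f := by
  by_contra hL
  have h1 := signSum_sq_of_noLinear f hf hL
  obtain ⟨m, rfl⟩ := hn
  have h2 : IsSquare ((2 : ℤ) ^ (2 * m + 1)) := ⟨signSum f, h1.symm⟩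
  have h3 : IsSquare ((2 : ℕ) ^ (2 * m + 1)) := by
    obtain ⟨r, hr⟩ := h2
    refine ⟨r.natAbs, ?_⟩
    have := congrArg Int.natAbs hr
    rw [Int.natAbs_mul, Int.natAbs_pow] at this
    simpa using this
  have h4 : ¬ IsSquare ((2 : ℕ) ^ (2 * m + 1)) := by
    intro h5
    rw [pow_succ, pow_mul'] at h5
    obtain ⟨r, hr⟩ := h5
    have h6 : (2 ^ m) ^ 2 ∣ r ^ 2 := ⟨2, by rw [sq r, ← hr]⟩
    have h7 : 2 ^ m ∣ r := (Nat.pow_dvd_pow_iff two_ne_zero).1 h6
    obtain ⟨q, rfl⟩ := h7
    have h8 : (2 ^ m) ^ 2 * 2 = (2 ^ m) ^ 2 * (q * q) := by rw [hr]; ring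
    have h9 : 2 = q * q := Nat.eq_of_mul_eq_mul_left (by positivity) h8
    have h10 : q < 2 := by nlinarith
    interval_cases q <;> omega
  exact h4 h3


/-- The sum of the sign sums over a subspace of components is divisible by its order. -/
theorem card_dvd_sum {n : ℕ} (F : (Fin n → ZMod 2) → (Fin n → ZMod 2))
    (U : Submodule (ZMod 2) (Fin n → ZMod 2)) [Fintype U] :
    (Fintype.card U : ℤ) ∣ ∑ u : U, signSum (comp F u) := by
  unfold signSum comp
  rw [Finset.sum_comm]
  refine Finset.dvd_sum fun x _ => ?_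
  let φ : U →+ ZMod 2 := AddMonoidHom.mk' (fun u => (u : Fin n → ZMod 2) ⬝ᵥ F x) (by
    intro a b
    simp [add_dotProduct])
  by_cases h : ∃ a, φ a ≠ 0
  · have h1 := sum_chi φ h
    have h2 : ∑ u : U, chi ((u : Fin n → ZMod 2) ⬝ᵥ F x) = 0 := h1
    rw [h2]
    exact dvd_zero _
  · push Not at h
    have h1 : ∀ u : U, chi ((u : Fin n → ZMod 2) ⬝ᵥ F x) = 1 := by
      intro u
      have := h u
      change (u : Fin n → ZMod 2) ⬝ᵥ F x = 0 at this
      rw [this, chi_zero]
    rw [Finset.sum_congr rfl fun u _ => h1 u]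
    simp

theorem even_of_sq {n : ℕ} {s : ℤ} (h : s * s = 2 ^ n) : Even n := by
  by_contra hn
  rw [Nat.not_even_iff_odd] at hn
  obtain ⟨m, rfl⟩ := hn
  have h3 : IsSquare ((2 : ℕ) ^ (2 * m + 1)) := by
    refine ⟨s.natAbs, ?_⟩
    have := congrArg Int.natAbs h
    rw [Int.natAbs_mul, Int.natAbs_pow] at this
    simpa using this.symm
  rw [pow_succ, pow_mul'] at h3
  obtain ⟨r, hr⟩ := h3
  have h6 : (2 ^ m) ^ 2 ∣ r ^ 2 := ⟨2, by rw [sq r, ← hr]⟩
  have h7 : 2 ^ m ∣ r := (Nat.pow_dvd_pow_iff two_ne_zero).1 h6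
  obtain ⟨q, rfl⟩ := h7
  have h8 : (2 ^ m) ^ 2 * 2 = (2 ^ m) ^ 2 * (q * q) := by rw [hr]; ring
  have h9 : 2 = q * q := Nat.eq_of_mul_eq_mul_left (by positivity) h8
  have h10 : q < 2 := by nlinarith
  interval_cases q <;> omega

theorem dvd_of_sq {m : ℕ} {s : ℤ} (h : s * s = 2 ^ (2 * m)) : (2 : ℤ) ^ (m + 1) ∣ s - 2 ^ m := by
  have h1 : (s - 2 ^ m) * (s + 2 ^ m) = 0 := by
    have : (2 : ℤ) ^ (2 * m) = 2 ^ m * 2 ^ m := by rw [two_mul, pow_add]
    rw [this] at h
    linear_combination h
  rcases mul_eq_zero.1 h1 with h2 | h2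
  · rw [h2]; exact dvd_zero _
  · refine ⟨-1, ?_⟩
    rw [pow_succ]
    linear_combination h2

/-- Nyberg's bound, in the form needed here. -/
theorem nyberg {n : ℕ} (F : (Fin n → ZMod 2) → (Fin n → ZMod 2))
    (U : Submodule (ZMod 2) (Fin n → ZMod 2))
    (h : ∀ u ∈ U, u ≠ 0 → signSum (comp F u) * signSum (comp F u) = 2 ^ n)
    (hU : 1 ≤ Module.finrank (ZMod 2) U) : 2 * Module.finrank (ZMod 2) U ≤ n := by
  classical
  by_contra hlt
  push Not at hlt
  have : Fintype U := Fintype.ofFinite U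
  obtain ⟨u₀, hu₀⟩ : ∃ u₀ : U, u₀ ≠ 0 := by
    have : Nontrivial U := Module.finrank_pos_iff.1 (by omega : 0 < Module.finrank (ZMod 2) U)
    exact exists_ne 0
  have hu₀' : (u₀ : Fin n → ZMod 2) ≠ 0 := fun h0 => hu₀ (Subtype.ext h0)
  obtain ⟨m, hm⟩ := even_of_sq (h u₀ u₀.2 hu₀')
  have hn : n = 2 * m := by omega
  have hm1 : 1 ≤ m := by
    by_contra h0
    have h1 : n = 0 := by omega
    subst h1
    exact hu₀' (funext fun i => i.elim0)
  have hcard : Fintype.card U = 2 ^ Module.finrank (ZMod 2) U := by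
    rw [Module.card_eq_pow_finrank (K := ZMod 2) (V := U), ZMod.card]
  have h1 : (2 : ℤ) ^ (m + 1) ∣ ∑ u : U, signSum (comp F u) := by
    refine dvd_trans ?_ (card_dvd_sum F U)
    rw [hcard]
    push_cast
    exact pow_dvd_pow 2 (by omega)
  have h2 : signSum (comp F ((0 : U) : Fin n → ZMod 2)) = 2 ^ n := by
    unfold signSum comp
    simp [chi_zero, ZMod.card]
  have h3 : (2 : ℤ) ^ (m + 1) ∣ signSum (comp F ((0 : U) : Fin n → ZMod 2)) := by
    rw [h2]
    exact pow_dvd_pow 2 (by omega)
  have h4 : (2 : ℤ) ^ (m + 1) ∣ ∑ u ∈ (Finset.univ : Finset U).erase 0,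
      (signSum (comp F u) - 2 ^ m) := by
    refine Finset.dvd_sum fun u hu => ?_
    have hu0 : u ≠ 0 := Finset.ne_of_mem_erase hu
    have hu' : (u : Fin n → ZMod 2) ≠ 0 := fun h0 => hu0 (Subtype.ext h0)
    refine dvd_of_sq ?_
    rw [h u u.2 hu', hn]
  have h5 := Finset.add_sum_erase (Finset.univ : Finset U) (fun u : U => signSum (comp F u))
    (Finset.mem_univ 0)
  rw [Finset.sum_sub_distrib, Finset.sum_const, Finset.card_erase_of_mem (Finset.mem_univ _),
    Finset.card_univ, hcard, nsmul_eq_mul] at h4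
  have h6 : (2 : ℤ) ^ (m + 1) ∣ ((2 ^ Module.finrank (ZMod 2) U - 1 : ℕ) : ℤ) * 2 ^ m := by
    have h7 := dvd_sub (dvd_sub h1 h3) h4
    have h8 : ∑ u : U, signSum (comp F u) - signSum (comp F ((0 : U) : Fin n → ZMod 2)) -
        (∑ u ∈ (Finset.univ : Finset U).erase 0, signSum (comp F u) -
          ((2 ^ Module.finrank (ZMod 2) U - 1 : ℕ) : ℤ) * 2 ^ m) =
        ((2 ^ Module.finrank (ZMod 2) U - 1 : ℕ) : ℤ) * 2 ^ m := by
      rw [← h5]; ring
    rw [h8] at h7
    exact h7
  rw [pow_succ, mul_comm ((2 : ℤ) ^ m) 2] at h6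
  have h9 : (2 : ℤ) ∣ ((2 ^ Module.finrank (ZMod 2) U - 1 : ℕ) : ℤ) :=
    Int.dvd_of_mul_dvd_mul_right (by positivity) h6
  have h10 : (2 : ℕ) ∣ 2 ^ Module.finrank (ZMod 2) U - 1 := by exact_mod_cast h9
  have h11 : (2 : ℕ) ∣ 2 ^ Module.finrank (ZMod 2) U := dvd_pow_self 2 (by omega)
  have h12 : 1 ≤ 2 ^ Module.finrank (ZMod 2) U := Nat.one_le_two_pow
  omega


/-- Orthogonality of the characters. -/
theorem sum_chi_dot {n : ℕ} (z : Fin n → ZMod 2) :
    ∑ w : Fin n → ZMod 2, chi (w ⬝ᵥ z) = if z = 0 then 2 ^ n else 0 := by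
  split_ifs with h
  · subst h
    simp [chi_zero, ZMod.card]
  · let φ : (Fin n → ZMod 2) →+ ZMod 2 := AddMonoidHom.mk' (fun w => w ⬝ᵥ z) (by
      intro a b
      simp [add_dotProduct])
    refine sum_chi φ ?_
    by_contra hcon
    push Not at hcon
    apply h
    funext i
    have := hcon (Pi.single i 1)
    change (Pi.single i 1 : Fin n → ZMod 2) ⬝ᵥ z = 0 at this
    rw [single_dotProduct, one_mul] at this
    exact this

theorem vadd_eq_zero {n : ℕ} {a b : Fin n → ZMod 2} : a + b = 0 ↔ b = a := by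
  constructor
  · intro h
    have : a + b + b = b := by rw [h, zero_add]
    rw [vadd_cancel] at this
    exact this.symm
  · rintro rfl
    exact vadd_self _

theorem walsh_inversion {n : ℕ} (f : (Fin n → ZMod 2) → ZMod 2) (c : Fin n → ZMod 2) :
    ∑ w, walsh f w * chi (w ⬝ᵥ c) = 2 ^ n * chi (f c) := by
  unfold walsh
  have h1 : ∀ w : Fin n → ZMod 2, (∑ x, chi (f x + w ⬝ᵥ x)) * chi (w ⬝ᵥ c) =
      ∑ x, chi (f x) * chi (w ⬝ᵥ (c + x)) := by
    intro w
    rw [Finset.sum_mul]
    refine Finset.sum_congr rfl fun x _ => ?_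
    rw [dotProduct_add, chi_add, chi_add]; ring
  rw [Finset.sum_congr rfl fun w _ => h1 w, Finset.sum_comm]
  simp_rw [← Finset.mul_sum, sum_chi_dot, vadd_eq_zero]
  simp [mul_comm]

theorem walsh_parseval {n : ℕ} (f : (Fin n → ZMod 2) → ZMod 2) :
    ∑ w, walsh f w * walsh f w = 2 ^ n * 2 ^ n := by
  have h1 : ∀ w : Fin n → ZMod 2, walsh f w * walsh f w =
      ∑ x, chi (f x) * (walsh f w * chi (w ⬝ᵥ x)) := by
    intro w
    conv_lhs => rw [mul_comm]; arg 1; unfold walsh
    rw [Finset.sum_mul]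
    refine Finset.sum_congr rfl fun x _ => ?_
    rw [chi_add]; ring
  rw [Finset.sum_congr rfl fun w _ => h1 w, Finset.sum_comm]
  simp_rw [← Finset.mul_sum, walsh_inversion]
  have h2 : ∀ x : Fin n → ZMod 2, chi (f x) * (2 ^ n * chi (f x)) = 2 ^ n := by
    intro x
    have := chi_sq (f x)
    linear_combination (2 ^ n : ℤ) * this
  rw [Finset.sum_congr rfl fun x _ => h2 x]
  simp [ZMod.card]

theorem walsh_cube {n : ℕ} (f : (Fin n → ZMod 2) → ZMod 2) (c : Fin n → ZMod 2) :
    ∑ w, walsh f w * walsh f w * walsh f w * chi (w ⬝ᵥ c) =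
      2 ^ n * ∑ x, ∑ y, chi (f x) * chi (f y) * chi (f (c + x + y)) := by
  have h1 : ∀ w : Fin n → ZMod 2, walsh f w * walsh f w * walsh f w * chi (w ⬝ᵥ c) =
      ∑ x, ∑ y, chi (f x) * chi (f y) * (walsh f w * chi (w ⬝ᵥ (c + x + y))) := by
    intro w
    have h2 : walsh f w * walsh f w * walsh f w * chi (w ⬝ᵥ c) =
        (∑ x, chi (f x + w ⬝ᵥ x)) * (∑ y, chi (f y + w ⬝ᵥ y)) * (walsh f w * chi (w ⬝ᵥ c)) := by
      unfold walsh; ring
    rw [h2, Finset.sum_mul_sum, Finset.sum_mul]
    refine Finset.sum_congr rfl fun x _ => ?_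
    rw [Finset.sum_mul]
    refine Finset.sum_congr rfl fun y _ => ?_
    rw [dotProduct_add, dotProduct_add, chi_add, chi_add, chi_add, chi_add]; ring
  rw [Finset.sum_congr rfl fun w _ => h1 w, Finset.sum_comm, Finset.mul_sum]
  refine Finset.sum_congr rfl fun x _ => ?_
  rw [Finset.sum_comm, Finset.mul_sum]
  refine Finset.sum_congr rfl fun y _ => ?_
  rw [← Finset.mul_sum, walsh_inversion]
  ring

/-- The signed number of affine planes through `c`, with the degenerate ones. -/
def planes {n : ℕ} (f : (Fin n → ZMod 2) → ZMod 2) (c : Fin n → ZMod 2) : ℤ :=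
  ∑ a, ∑ b, chi (f c + f (c + a) + f (c + b) + f (c + a + b))

theorem planes_eq {n : ℕ} (f : (Fin n → ZMod 2) → ZMod 2) (c : Fin n → ZMod 2) :
    planes f c = chi (f c) * ∑ x, ∑ y, chi (f x) * chi (f y) * chi (f (c + x + y)) := by
  unfold planes
  rw [Finset.mul_sum, ← Equiv.sum_comp (Equiv.addLeft c)
    (fun x => chi (f c) * ∑ y, chi (f x) * chi (f y) * chi (f (c + x + y)))]
  refine Finset.sum_congr rfl fun a _ => ?_
  rw [Finset.mul_sum, ← Equiv.sum_comp (Equiv.addLeft c)
    (fun y => chi (f c) * (chi (f (Equiv.addLeft c a)) * chi (f y) *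
      chi (f (c + Equiv.addLeft c a + y))))]
  refine Finset.sum_congr rfl fun b _ => ?_
  simp only [Equiv.coe_addLeft]
  have h1 : c + (c + a) + (c + b) = c + a + b := by
    rw [show c + (c + a) + (c + b) = c + a + b + (c + c) by ring, vadd_self, add_zero]
  rw [h1, chi_add, chi_add, chi_add]; ring

/-- For a plateaued function all local counts equal the square of the amplitude. -/
theorem planes_of_plateaued {n : ℕ} (f : (Fin n → ZMod 2) → ZMod 2) (hf : Plateaued f) :
    ∃ l : ℤ, (∀ c, planes f c = l * l) ∧ 2 ^ n ≤ l * l ∧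
      (l * l = 2 ^ n → signSum f * signSum f = 2 ^ n) := by
  obtain ⟨l, hl⟩ := hf
  have hsq : ∀ w, walsh f w * walsh f w ≤ l * l := by
    intro w
    rcases hl w with h | h | h
    · rw [h]; nlinarith [mul_self_nonneg l]
    · rw [h]
    · rw [h]; nlinarith
  refine ⟨l, fun c => ?_, ?_, ?_⟩
  · have h1 := walsh_cube f c
    have h2 : ∀ w : Fin n → ZMod 2, walsh f w * walsh f w * walsh f w * chi (w ⬝ᵥ c) =
        l * l * (walsh f w * chi (w ⬝ᵥ c)) := by
      intro w
      rcases hl w with h | h | h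
      · rw [h]; ring
      · rw [h]; ring
      · rw [h]; ring
    rw [Finset.sum_congr rfl fun w _ => h2 w, ← Finset.mul_sum, walsh_inversion] at h1
    have h3 : (2 : ℤ) ^ n ≠ 0 := by positivity
    have h4 : l * l * chi (f c) = ∑ x, ∑ y, chi (f x) * chi (f y) * chi (f (c + x + y)) := by
      apply mul_left_cancel₀ h3
      rw [← h1]; ring
    rw [planes_eq, ← h4]
    have := chi_sq (f c)
    linear_combination (l * l) * this
  · have h1 := walsh_parseval f
    have h2 : ∑ w : Fin n → ZMod 2, walsh f w * walsh f w ≤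
        ∑ _w : Fin n → ZMod 2, l * l := Finset.sum_le_sum fun w _ => hsq w
    rw [h1] at h2
    simp only [Finset.sum_const, Finset.card_univ, Fintype.card_pi, ZMod.card, Finset.prod_const,
      Fintype.card_fin, nsmul_eq_mul] at h2
    push_cast at h2
    have h3 : (0 : ℤ) < 2 ^ n := by positivity
    exact le_of_mul_le_mul_left h2 h3
  · intro h0
    have h1 := walsh_parseval f
    have h2 : ∑ w : Fin n → ZMod 2, (l * l - walsh f w * walsh f w) = 0 := by
      rw [Finset.sum_sub_distrib, h1, h0]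
      simp [ZMod.card]
    rw [Finset.sum_eq_zero_iff_of_nonneg (fun w _ => by linarith [hsq w])] at h2
    have h3 := h2 0 (Finset.mem_univ _)
    have h4 : walsh f 0 = signSum f := by
      unfold walsh signSum
      simp
    rw [h4] at h3
    linarith


/-- The condition on a direction `v`: some component orthogonal to `v` has a nonzero linear
structure, or all components orthogonal to `v` are plateaued. -/
def Good {n : ℕ} (F : (Fin n → ZMod 2) → (Fin n → ZMod 2)) (v : Fin n → ZMod 2) : Prop :=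
  (∃ u : Fin n → ZMod 2, u ≠ 0 ∧ u ⬝ᵥ v = 0 ∧ HasLinearStructure (comp F u)) ∨
    (∀ u : Fin n → ZMod 2, u ⬝ᵥ v = 0 → Plateaued (comp F u))

/-- The hyperplane orthogonal to `v`. -/
def perp {n : ℕ} (v : Fin n → ZMod 2) : Submodule (ZMod 2) (Fin n → ZMod 2) :=
  LinearMap.ker (dotProductBilin (ZMod 2) (ZMod 2) v)

theorem mem_perp {n : ℕ} (v u : Fin n → ZMod 2) : u ∈ perp v ↔ u ⬝ᵥ v = 0 := by
  unfold perp
  rw [LinearMap.mem_ker]
  change v ⬝ᵥ u = 0 ↔ _
  rw [dotProduct_comm]

theorem finrank_perp {n : ℕ} (v : Fin n → ZMod 2) (hv : v ≠ 0) :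
    Module.finrank (ZMod 2) (perp v) + 1 = n := by
  have h1 := LinearMap.finrank_range_add_finrank_ker (dotProductBilin (ZMod 2) (ZMod 2) v)
  rw [Module.finrank_fin_fun] at h1
  have h2 : LinearMap.range (dotProductBilin (ZMod 2) (ZMod 2) v) = ⊤ := by
    rw [LinearMap.range_eq_top]
    obtain ⟨i, hi⟩ : ∃ i, v i ≠ 0 := by
      by_contra h
      push Not at h
      exact hv (funext h)
    intro z
    refine ⟨Pi.single i z, ?_⟩
    change v ⬝ᵥ (Pi.single i z) = z
    rw [dotProduct_single, (zmod2 _).resolve_left hi, one_mul]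
  rw [h2, finrank_top, Module.finrank_self] at h1
  unfold perp
  omega

theorem mem_span_of_perp {n : ℕ} (v w : Fin n → ZMod 2) (hv : v ≠ 0)
    (h : ∀ u : Fin n → ZMod 2, u ⬝ᵥ v = 0 → u ⬝ᵥ w = 0) : w = 0 ∨ w = v := by
  obtain ⟨i, hi⟩ : ∃ i, v i ≠ 0 := by
    by_contra h
    push Not at h
    exact hv (funext h)
  have hi1 : v i = 1 := (zmod2 _).resolve_left hi
  have h1 : ∀ j, w j = v j * w i := by
    intro j
    have h2 := h (Pi.single j 1 + Pi.single i (v j)) (by
      rw [add_dotProduct, single_dotProduct, single_dotProduct, hi1, one_mul, mul_one]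
      exact CharTwo.add_self_eq_zero _)
    rw [add_dotProduct, single_dotProduct, single_dotProduct, one_mul] at h2
    exact (CharTwo.add_eq_zero.1 h2)
  rcases zmod2 (w i) with h3 | h3
  · left
    funext j
    rw [h1 j, h3, mul_zero]; rfl
  · right
    funext j
    rw [h1 j, h3, mul_one]

theorem sum_perp {n : ℕ} (v w : Fin n → ZMod 2) (hv : v ≠ 0) [Fintype (perp v)] :
    ∑ u : perp v, chi ((u : Fin n → ZMod 2) ⬝ᵥ w) =
      if w = 0 ∨ w = v then (Fintype.card (perp v) : ℤ) else 0 := by
  split_ifs with h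
  · have h1 : ∀ u : perp v, chi ((u : Fin n → ZMod 2) ⬝ᵥ w) = 1 := by
      intro u
      rcases h with h | h
      · rw [h, dotProduct_zero, chi_zero]
      · rw [h, (mem_perp v u).1 u.2, chi_zero]
    rw [Finset.sum_congr rfl fun u _ => h1 u]
    simp
  · let φ : perp v →+ ZMod 2 := AddMonoidHom.mk' (fun u => (u : Fin n → ZMod 2) ⬝ᵥ w) (by
      intro a b
      simp [add_dotProduct])
    refine sum_chi φ ?_
    by_contra hcon
    push Not at hcon
    apply h
    refine mem_span_of_perp v w hv fun u hu => ?_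
    exact hcon ⟨u, (mem_perp v u).2 hu⟩

/-- The sum of the values of `F` over the plane `c, c + a, c + b, c + a + b`. -/
def quad {n : ℕ} (F : (Fin n → ZMod 2) → (Fin n → ZMod 2)) (c a b : Fin n → ZMod 2) :
    Fin n → ZMod 2 :=
  F c + F (c + a) + F (c + b) + F (c + a + b)

theorem quad_degenerate {n : ℕ} (F : (Fin n → ZMod 2) → (Fin n → ZMod 2))
    (c a b : Fin n → ZMod 2) (h : a = 0 ∨ b = 0 ∨ a = b) : quad F c a b = 0 := by
  unfold quad
  rcases h with rfl | rfl | rfl
  · rw [add_zero, show F c + F c + F (c + b) + F (c + b) =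
      (F c + F c) + (F (c + b) + F (c + b)) by ring, vadd_self, vadd_self, add_zero]
  · rw [add_zero, add_zero, show F c + F (c + a) + F c + F (c + a) =
      (F c + F c) + (F (c + a) + F (c + a)) by ring, vadd_self, vadd_self, add_zero]
  · rw [vadd_cancel c a, show F c + F (c + a) + F (c + a) + F c =
      (F c + F c) + (F (c + a) + F (c + a)) by ring, vadd_self, vadd_self, add_zero]

theorem quad_ne_zero {n : ℕ} (F : (Fin n → ZMod 2) → (Fin n → ZMod 2)) (hF : APN F)
    (c a b : Fin n → ZMod 2) (ha : a ≠ 0) (hb : b ≠ 0) (hab : a ≠ b) : quad F c a b ≠ 0 := by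
  intro h0
  unfold quad at h0
  have h1 := hF a (F (c + a) + F c) ha
  have hab' : a + b ≠ 0 := fun h => hab (vadd_eq_zero.1 h).symm
  have h2 : ({c, c + a, c + b} : Finset (Fin n → ZMod 2)) ⊆
      Finset.univ.filter (fun x => F (x + a) + F x = F (c + a) + F c) := by
    intro x hx
    simp only [Finset.mem_insert, Finset.mem_singleton] at hx
    simp only [Finset.mem_filter, Finset.mem_univ, true_and]
    rcases hx with rfl | rfl | rfl
    · rfl
    · rw [vadd_cancel, add_comm]
    · have h3 : F (c + a + b) + F (c + b) + (F (c + a) + F c) = 0 := by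
        rw [← h0]; ring
      rw [show c + b + a = c + a + b by ring]
      exact (vadd_eq_zero.1 h3).symm
  have h3 := Finset.card_le_card h2
  have h4 : ({c, c + a, c + b} : Finset (Fin n → ZMod 2)).card = 3 := by
    rw [Finset.card_insert_of_notMem, Finset.card_pair]
    · intro h; exact hab (add_left_cancel h)
    · simp only [Finset.mem_insert, Finset.mem_singleton, not_or]
      refine ⟨fun h => ha ?_, fun h => hb ?_⟩
      · exact left_eq_add.1 h
      · exact left_eq_add.1 h
  omega

theorem quad_ne_of_not_reach {n : ℕ} (F : (Fin n → ZMod 2) → (Fin n → ZMod 2))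
    (c v a b : Fin n → ZMod 2) (hv : v ≠ 0) (hR : ¬ Reach F c v) : quad F c a b ≠ v := by
  intro h
  by_cases hd : a = 0 ∨ b = 0 ∨ a = b
  · rw [quad_degenerate F c a b hd] at h
    exact hv h.symm
  · push Not at hd
    obtain ⟨ha, hb, hab⟩ := hd
    apply hR
    refine ⟨c + a, c + b, c + a + b, ?_, ?_, ?_, ?_, ?_⟩
    · intro h; exact hab (add_left_cancel h)
    · intro h; exact hb (left_eq_add.1 h)
    · intro h
      rw [show c + a + b = c + b + a by ring] at h
      exact ha (left_eq_add.1 h)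
    · rw [show c + a + (c + b) + (c + a + b) = c + (c + c) + (a + a) + (b + b) by ring,
        vadd_self, vadd_self, vadd_self]; simp
    · rw [← h]
      unfold quad
      rw [show F c + (F c + F (c + a) + F (c + b) + F (c + a + b)) =
        (F c + F c) + (F (c + a) + F (c + b) + F (c + a + b)) by ring, vadd_self, zero_add]

theorem card_degenerate (n : ℕ) :
    ((∑ a : Fin n → ZMod 2, ∑ b : Fin n → ZMod 2,
      if a = 0 ∨ b = 0 ∨ a = b then (1 : ℤ) else 0)) = 3 * 2 ^ n - 2 := by
  have hc : (Fintype.card (Fin n → ZMod 2) : ℤ) = 2 ^ n := by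
    simp [ZMod.card]
  have h1 : ∀ a : Fin n → ZMod 2, (∑ b : Fin n → ZMod 2,
      if a = 0 ∨ b = 0 ∨ a = b then (1 : ℤ) else 0) = if a = 0 then 2 ^ n else 2 := by
    intro a
    split_ifs with ha
    · subst ha
      simp [ZMod.card]
    · have h2 : ∀ b : Fin n → ZMod 2, (if a = 0 ∨ b = 0 ∨ a = b then (1 : ℤ) else 0) =
          (if b = 0 then 1 else 0) + (if a = b then 1 else 0) := by
        intro b
        by_cases hb : b = 0
        · subst hb
          simp [ha]
        · simp [ha, hb]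
      rw [Finset.sum_congr rfl fun b _ => h2 b, Finset.sum_add_distrib]
      simp
  rw [Finset.sum_congr rfl fun a _ => h1 a]
  have h2 : ∀ a : Fin n → ZMod 2, (if a = 0 then (2 : ℤ) ^ n else 2) =
      2 + if a = 0 then 2 ^ n - 2 else 0 := by
    intro a
    split_ifs <;> ring
  rw [Finset.sum_congr rfl fun a _ => h2 a, Finset.sum_add_distrib, Finset.sum_const,
    Finset.card_univ, nsmul_eq_mul, hc]
  simp
  ring

/-- If all components orthogonal to `v` are plateaued, then everything in direction `v` is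
reached. -/
theorem reach_of_plateaued {n : ℕ} (hn : 3 ≤ n) (F : (Fin n → ZMod 2) → (Fin n → ZMod 2))
    (hF : APN F) (v : Fin n → ZMod 2) (hv : v ≠ 0)
    (hP : ∀ u : Fin n → ZMod 2, u ⬝ᵥ v = 0 → Plateaued (comp F u)) (c : Fin n → ZMod 2) :
    Reach F c v := by
  classical
  by_contra hR
  have : Fintype (perp v) := Fintype.ofFinite _
  have hrank := finrank_perp v hv
  have hcard : (Fintype.card (perp v) : ℤ) = 2 ^ (n - 1) := by
    rw [Module.card_eq_pow_finrank (K := ZMod 2) (V := perp v), ZMod.card,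
      show Module.finrank (ZMod 2) (perp v) = n - 1 by omega]
    push_cast; rfl
  -- the double count
  have h1 : ∑ u : perp v, planes (comp F u) c = 2 ^ (n - 1) * (3 * 2 ^ n - 2) := by
    have e1 : ∀ u : perp v, planes (comp F u) c =
        ∑ a, ∑ b, chi ((u : Fin n → ZMod 2) ⬝ᵥ quad F c a b) := by
      intro u
      unfold planes comp quad
      refine Finset.sum_congr rfl fun a _ => Finset.sum_congr rfl fun b _ => ?_
      rw [dotProduct_add, dotProduct_add, dotProduct_add]
    rw [Finset.sum_congr rfl fun u _ => e1 u, Finset.sum_comm, ← card_degenerate n,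
      Finset.mul_sum]
    refine Finset.sum_congr rfl fun a _ => ?_
    rw [Finset.sum_comm, Finset.mul_sum]
    refine Finset.sum_congr rfl fun b _ => ?_
    rw [sum_perp v _ hv, hcard]
    by_cases hd : a = 0 ∨ b = 0 ∨ a = b
    · rw [if_pos (Or.inl (quad_degenerate F c a b hd)), if_pos hd, mul_one]
    · rw [if_neg, if_neg hd, mul_zero]
      push Not at hd
      rintro (h | h)
      · exact quad_ne_zero F hF c a b hd.1 hd.2.1 hd.2.2 h
      · exact quad_ne_of_not_reach F c v a b hv hR h
  have h0 : planes (comp F ((0 : perp v) : Fin n → ZMod 2)) c = 2 ^ n * 2 ^ n := by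
    unfold planes comp
    simp [chi_zero, ZMod.card]
  have h2 := Finset.add_sum_erase (Finset.univ : Finset (perp v))
    (fun u : perp v => planes (comp F u) c) (Finset.mem_univ 0)
  rw [h1] at h2
  simp only [h0] at h2
  have hpow : (2 : ℤ) ^ n = 2 * 2 ^ (n - 1) := by
    rw [← pow_succ']
    congr 1
    omega
  have h3 : ∑ u ∈ (Finset.univ : Finset (perp v)).erase 0, (planes (comp F u) c - 2 ^ n) = 0 := by
    rw [Finset.sum_sub_distrib, Finset.sum_const, Finset.card_erase_of_mem (Finset.mem_univ _),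
      Finset.card_univ, nsmul_eq_mul]
    have h4 : 1 ≤ Fintype.card (perp v) := Fintype.card_pos
    rw [Nat.cast_sub h4, hcard]
    push_cast
    have h5 : ∑ u ∈ (Finset.univ : Finset (perp v)).erase 0, planes (comp F u) c =
        2 ^ (n - 1) * (3 * 2 ^ n - 2) - 2 ^ n * 2 ^ n := by linarith
    rw [h5, hpow]
    ring
  have hge : ∀ u : perp v, 2 ^ n ≤ planes (comp F u) c := by
    intro u
    obtain ⟨l, hl, hl2, -⟩ := planes_of_plateaued (comp F u) (hP u ((mem_perp v u).1 u.2))
    rw [hl c]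
    exact hl2
  rw [Finset.sum_eq_zero_iff_of_nonneg (fun u _ => by linarith [hge u])] at h3
  have h6 : ∀ u ∈ perp v, u ≠ 0 → signSum (comp F u) * signSum (comp F u) = 2 ^ n := by
    intro u hu hu0
    obtain ⟨l, hl, hl2, hl3⟩ := planes_of_plateaued (comp F u) (hP u ((mem_perp v u).1 hu))
    apply hl3
    have h7 := h3 ⟨u, hu⟩ (Finset.mem_erase.2 ⟨fun h => hu0 (congrArg Subtype.val h),
      Finset.mem_univ _⟩)
    have h8 := hl c
    simp only at h7
    rw [h8] at h7
    linarith
  have h7 := nyberg F (perp v) h6 (by omega)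
  omega

theorem reach_of_good {n : ℕ} (hn : 3 ≤ n) (F : (Fin n → ZMod 2) → (Fin n → ZMod 2))
    (hF : APN F) (v : Fin n → ZMod 2) (hv : v ≠ 0) (hG : Good F v) (c : Fin n → ZMod 2) :
    Reach F c v := by
  rcases hG with ⟨u, hu, huv, hL⟩ | hP
  · exact reach_of_linear F hF u v hu hv huv hL c
  · exact reach_of_plateaued hn F hF v hv hP c

/-- A function that is reached at `(c, G c)` by three other points of its graph is not APN. -/
theorem not_APN_of_three {n : ℕ} (G : (Fin n → ZMod 2) → (Fin n → ZMod 2))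
    (c x y z : Fin n → ZMod 2) (hxy : x ≠ y) (hxz : x ≠ z) (hyz : y ≠ z)
    (hsum : x + y + z = c) (hG : G x + G y + G z = G c) : ¬ APN G := by
  intro hA
  have ha : x + y ≠ 0 := fun h => hxy (vadd_eq_zero.1 h).symm
  have h1 := quad_ne_zero G hA x (x + y) (x + z) ha (fun h => hxz (vadd_eq_zero.1 h).symm)
    (fun h => hyz (add_left_cancel h))
  apply h1
  unfold quad
  have e1 : x + (x + y) = y := by rw [← add_assoc, vadd_self, zero_add]
  have e2 : x + (x + z) = z := by rw [← add_assoc, vadd_self, zero_add]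
  have e3 : y + (x + z) = c := by rw [← hsum]; ring
  rw [e1, e2, e3, hG, vadd_self]

theorem not_APN_of_reach {n : ℕ} (F G : (Fin n → ZMod 2) → (Fin n → ZMod 2))
    (c : Fin n → ZMod 2) (hFG : ∀ x, x ≠ c → F x = G x)
    (hR : Reach F c (F c + G c)) : ¬ APN G := by
  obtain ⟨x, y, z, hxy, hxz, hyz, hsum, hval⟩ := hR
  have hx : x ≠ c := by
    rintro rfl
    apply hyz
    have : y + z = 0 := by
      have h1 : x + (y + z) = x := by rw [← add_assoc, hsum]
      exact add_eq_left.1 h1
    exact (vadd_eq_zero.1 this).symm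
  have hy : y ≠ c := by
    rintro rfl
    apply hxz
    have : x + z = 0 := by
      have h1 : y + (x + z) = y := by rw [← add_assoc, add_comm y x, hsum]
      exact add_eq_left.1 h1
    exact (vadd_eq_zero.1 this).symm
  have hz : z ≠ c := by
    rintro rfl
    apply hxy
    have : x + y = 0 := by
      have h1 : z + (x + y) = z := by rw [add_comm, hsum]
      exact add_eq_left.1 h1
    exact (vadd_eq_zero.1 this).symm
  refine not_APN_of_three G c x y z hxy hxz hyz hsum ?_
  rw [← hFG x hx, ← hFG y hy, ← hFG z hz, hval, ← add_assoc, vadd_self, zero_add]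

theorem reach_ccz {n : ℕ} (F F' : (Fin n → ZMod 2) → (Fin n → ZMod 2)) (hC : CCZ F F')
    (hR : ∀ v, v ≠ 0 → ∀ c, Reach F c v) (v : Fin n → ZMod 2) (hv : v ≠ 0)
    (c : Fin n → ZMod 2) : Reach F' c v := by
  obtain ⟨L, t, hL⟩ := hC
  choose g hg using hL
  have hg_inj : Function.Injective g := by
    intro y y' h
    have h1 := hg y
    rw [h, ← hg y'] at h1
    exact congrArg Prod.fst h1
  have hg_surj : Function.Surjective g := Finite.injective_iff_surjective.1 hg_inj
  -- the point to be reached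
  have hpair : ∀ e : (Fin n → ZMod 2) × (Fin n → ZMod 2), e + e = 0 := by
    intro e
    exact Prod.ext (vadd_self _) (vadd_self _)
  set e : (Fin n → ZMod 2) × (Fin n → ZMod 2) := L.symm ((c, F' c + v) + t) with he
  have hLe : L e = (c, F' c + v) + t := by rw [he]; simp
  have he2 : e.2 ≠ F e.1 := by
    intro h
    obtain ⟨y, hy⟩ := hg_surj e.1
    have h1 := hg y
    rw [hy, ← h, Prod.mk.eta, hLe, add_assoc, hpair, add_zero] at h1
    have h2 : y = c := congrArg Prod.fst h1
    have h3 : F' y = F' c + v := congrArg Prod.snd h1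
    rw [h2] at h3
    exact hv (left_eq_add.1 h3)
  obtain ⟨x, y, z, hxy, hxz, hyz, hsum, hval⟩ := hR (F e.1 + e.2)
    (fun h => he2 (vadd_eq_zero.1 h)) e.1
  rw [← add_assoc, vadd_self, zero_add] at hval
  obtain ⟨x', hx'⟩ := hg_surj x
  obtain ⟨y', hy'⟩ := hg_surj y
  obtain ⟨z', hz'⟩ := hg_surj z
  have h1 : (x, F x) + (y, F y) + (z, F z) = e := Prod.ext hsum hval
  have h2 : (x', F' x') + (y', F' y') + (z', F' z') = (c, F' c + v) := by
    rw [hg x', hg y', hg z', hx', hy', hz']
    rw [show L (x, F x) + t + (L (y, F y) + t) + (L (z, F z) + t) =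
      (L (x, F x) + L (y, F y) + L (z, F z)) + (t + t) + t by abel, hpair, add_zero,
      ← map_add, ← map_add, h1, hLe, add_assoc, hpair, add_zero]
  refine ⟨x', y', z', ?_, ?_, ?_, congrArg Prod.fst h2, congrArg Prod.snd h2⟩
  · rintro rfl; exact hxy (hx'.symm.trans hy')
  · rintro rfl; exact hxz (hx'.symm.trans hz')
  · rintro rfl; exact hyz (hy'.symm.trans hz')

theorem good_of_quadratic {n : ℕ} (F : (Fin n → ZMod 2) → (Fin n → ZMod 2))
    (U : Submodule (ZMod 2) (Fin n → ZMod 2)) (hU : ∀ u ∈ U, DegLeTwo (comp F u))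
    (hd : (Odd n ∧ 2 ≤ Module.finrank (ZMod 2) U) ∨ n + 4 ≤ 2 * Module.finrank (ZMod 2) U)
    (v : Fin n → ZMod 2) (hv : v ≠ 0) : Good F v := by
  left
  have h1 := Submodule.finrank_sup_add_finrank_inf_eq U (perp v)
  have h2 : Module.finrank (ZMod 2) (U ⊔ perp v : Submodule (ZMod 2) (Fin n → ZMod 2)) ≤ n := by
    have := Submodule.finrank_le (U ⊔ perp v)
    rwa [Module.finrank_fin_fun] at this
  have h3 := finrank_perp v hv
  have h4 : Module.finrank (ZMod 2) U ≤
      Module.finrank (ZMod 2) (U ⊓ perp v : Submodule (ZMod 2) (Fin n → ZMod 2)) + 1 := by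
    omega
  by_contra hcon
  push Not at hcon
  have h5 : ∀ u ∈ U ⊓ perp v, u ≠ 0 → signSum (comp F u) * signSum (comp F u) = 2 ^ n := by
    intro u hu hu0
    exact signSum_sq_of_noLinear _ (hU u hu.1).secondConst
      (hcon u hu0 ((mem_perp v u).1 hu.2))
  have h6 : 1 ≤ Module.finrank (ZMod 2)
      (U ⊓ perp v : Submodule (ZMod 2) (Fin n → ZMod 2)) := by
    rcases hd with ⟨-, hd⟩ | hd <;> omega
  have h7 := nyberg F (U ⊓ perp v) h5 h6
  rcases hd with ⟨ho, hd⟩ | hd
  · obtain ⟨u₀, hu₀⟩ : ∃ u₀ : (U ⊓ perp v : Submodule (ZMod 2) (Fin n → ZMod 2)), u₀ ≠ 0 := by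
      have : Nontrivial (U ⊓ perp v : Submodule (ZMod 2) (Fin n → ZMod 2)) :=
        Module.finrank_pos_iff.1 (by omega : 0 < Module.finrank (ZMod 2)
          (U ⊓ perp v : Submodule (ZMod 2) (Fin n → ZMod 2)))
      exact exists_ne 0
    have hu₀' : (u₀ : Fin n → ZMod 2) ≠ 0 := fun h0 => hu₀ (Subtype.ext h0)
    have h8 := even_of_sq (h5 u₀ u₀.2 hu₀')
    exact (Nat.not_even_iff_odd.2 ho) h8
  · omega


/-- Let `n ≥ 3` and let `F` be APN. Suppose that for every `v ≠ 0` some component `u · F` with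
`u ≠ 0`, `u · v = 0` has a nonzero linear structure, or all components orthogonal to `v` are
plateaued; or suppose that the components of degree at most two contain a subspace of dimension
at least `2` with `n` odd, or of dimension at least `n / 2 + 2`. Then no function CCZ-equivalent
to `F` (in particular, not `F` itself) has an APN function at Hamming distance one. -/
theorem result {n : ℕ} (hn : 3 ≤ n) (F F' G : (Fin n → ZMod 2) → (Fin n → ZMod 2))
    (hF : APN F)
    (h : (∀ v : Fin n → ZMod 2, v ≠ 0 → Good F v) ∨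
      (∃ U : Submodule (ZMod 2) (Fin n → ZMod 2), (∀ u ∈ U, DegLeTwo (comp F u)) ∧
        ((Odd n ∧ 2 ≤ Module.finrank (ZMod 2) U) ∨ n + 4 ≤ 2 * Module.finrank (ZMod 2) U)))
    (hC : CCZ F F')
    (hG : (Finset.univ.filter (fun x : Fin n → ZMod 2 => F' x ≠ G x)).card = 1) :
    ¬ APN G := by
  have hgood : ∀ v : Fin n → ZMod 2, v ≠ 0 → Good F v := by
    rcases h with h | ⟨U, hU, hd⟩
    · exact h
    · exact fun v hv => good_of_quadratic F U hU hd v hv
  obtain ⟨c, hc⟩ := Finset.card_eq_one.1 hG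
  have hc1 : F' c ≠ G c := by
    have : c ∈ Finset.univ.filter (fun x : Fin n → ZMod 2 => F' x ≠ G x) := by
      rw [hc]; exact Finset.mem_singleton_self c
    simpa using this
  have hc2 : ∀ x, x ≠ c → F' x = G x := by
    intro x hx
    by_contra hne
    have : x ∈ Finset.univ.filter (fun x : Fin n → ZMod 2 => F' x ≠ G x) := by
      simpa using hne
    rw [hc, Finset.mem_singleton] at this
    exact hx this
  refine not_APN_of_reach F' G c hc2 ?_
  refine reach_ccz F F' hC (fun v hv c => reach_of_good hn F hF v hv (hgood v hv) c) _ ?_ c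
  intro h0
  exact hc1 (vadd_eq_zero.1 h0).symm

end Pool.Agent.Results.MP_027baa_co.LinearStructures
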