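import Mathlib

set_option autoImplicit false

/-!
# Changing an APN power function at the point zero

For every APN power function `F(x) = x ^ d` on a field with `2 ^ n` elements, `n ≥ 3`, and every
`u ≠ 0`, the function `F + u δ₀` is not APN.
-/

namespace Pool.Agent.Results.MP_027baa_co.PowerAtZero

open Finset

/-- Almost perfect nonlinear functions on a finite field of characteristic 2. -/
def APN {K : Type} [Field K] [Fintype K] [DecidableEq K] (F : K → K) : Prop :=
  ∀ a b : K, a ≠ 0 → (Finset.univ.filter (fun x : K => F (x + a) + F x = b)).card ≤ 2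

variable {K : Type} [Field K]

/-- The set of sums `x ^ d + y ^ d + (x + y) ^ d` over two-dimensional subspaces. -/
def D (K : Type) [Field K] (d : ℕ) (u : K) : Prop :=
  ∃ x y : K, x ≠ 0 ∧ y ≠ 0 ∧ x ≠ y ∧ x ^ d + y ^ d + (x + y) ^ d = u

theorem D_mul {d : ℕ} {u : K} (l : K) (hl : l ≠ 0) (h : D K d u) : D K d (l ^ d * u) := by
  obtain ⟨x, y, hx, hy, hxy, h⟩ := h
  refine ⟨l * x, l * y, mul_ne_zero hl hx, mul_ne_zero hl hy,
    fun h' => hxy (mul_left_cancel₀ hl h'), ?_⟩
  rw [← h, ← mul_add, mul_pow, mul_pow, mul_pow]; ring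

theorem D_sq [CharP K 2] {d : ℕ} {u : K} (h : D K d u) : D K d (u ^ 2) := by
  obtain ⟨x, y, hx, hy, hxy, h⟩ := h
  refine ⟨x ^ 2, y ^ 2, pow_ne_zero 2 hx, pow_ne_zero 2 hy, ?_, ?_⟩
  · intro h'
    apply hxy
    have h1 : (x + y) ^ 2 = 0 := by
      rw [CharTwo.add_sq, h', CharTwo.add_self_eq_zero]
    have h2 : x + y = 0 := by
      exact pow_eq_zero_iff (two_ne_zero) |>.1 h1
    exact CharTwo.add_eq_zero.1 h2
  · rw [← h, CharTwo.add_sq, CharTwo.add_sq, ← CharTwo.add_sq x y, ← pow_mul, ← pow_mul,
      ← pow_mul, ← pow_mul, ← pow_mul, ← pow_mul, mul_comm 2 d]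

/-- If `u` is in `D`, then `F + u δ₀` is not APN. -/
theorem not_APN_of_D [Fintype K] [DecidableEq K] [CharP K 2] {d : ℕ} (hd : d ≠ 0) {u : K} (hu : D K d u) :
    ¬ APN (fun x : K => x ^ d + if x = 0 then u else 0) := by
  obtain ⟨x, y, hx, hy, hxy, h⟩ := hu
  intro hA
  have h1 := hA x (x ^ d + u) hx
  have hxy0 : x + y ≠ 0 := fun h' => hxy (CharTwo.add_eq_zero.1 h')
  have h2 : ({0, x, y} : Finset K) ⊆ Finset.univ.filter (fun t : K =>
      ((t + x) ^ d + if t + x = 0 then u else 0) + (t ^ d + if t = 0 then u else 0) =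
        x ^ d + u) := by
    intro t ht
    simp only [Finset.mem_insert, Finset.mem_singleton] at ht
    simp only [Finset.mem_filter, Finset.mem_univ, true_and]
    rcases ht with rfl | rfl | rfl
    · simp [hx, hd]
    · rw [CharTwo.add_self_eq_zero]
      simp [hx, hd, add_comm]
    · have e1 : t + x ≠ 0 := by rw [add_comm]; exact hxy0
      rw [if_neg e1, if_neg hy, ← h]
      have h3 : x ^ d + x ^ d = 0 := CharTwo.add_self_eq_zero _
      rw [add_comm t x]
      linear_combination -h3
  have h3 := Finset.card_le_card h2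
  have h4 : ({0, x, y} : Finset K).card = 3 := by
    rw [Finset.card_insert_of_notMem, Finset.card_pair hxy]
    simp [Ne.symm hx, Ne.symm hy]
  have h5 := h3.trans h1
  omega

/-- The kernel of the power map is small for an APN power function. -/
theorem card_kernel [Fintype K] [DecidableEq K] [CharP K 2] {d : ℕ} (hA : APN (fun x : K => x ^ d)) :
    (Finset.univ.filter (fun z : Kˣ => z ^ d = 1)).card ≤ 3 := by
  have h1 : (Finset.univ.filter (fun x : K => (x + 1) ^ d + x ^ d = 0)).card ≤ 2 :=
    hA 1 0 one_ne_zero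
  have h2 : ((Finset.univ.filter (fun z : Kˣ => z ^ d = 1)).erase 1).card ≤
      (Finset.univ.filter (fun x : K => (x + 1) ^ d + x ^ d = 0)).card := by
    refine Finset.card_le_card_of_injOn (fun z : Kˣ => (1 + (z : K))⁻¹) ?_ ?_
    · intro z hz
      rw [Finset.mem_coe, Finset.mem_erase, Finset.mem_filter] at hz
      obtain ⟨hz1, _, hz2⟩ := hz
      have hz1' : (z : K) ≠ 1 := fun h => hz1 (Units.ext h)
      have hne : (1 + (z : K)) ≠ 0 := fun h => hz1' (CharTwo.add_eq_zero.1 h).symm
      rw [Finset.mem_coe, Finset.mem_filter]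
      refine ⟨Finset.mem_univ _, ?_⟩
      have h3 : (1 + (z : K))⁻¹ + 1 = (z : K) * (1 + (z : K))⁻¹ := by
        field_simp
        linear_combination (CharTwo.add_self_eq_zero (1 : K))
      have h4 : (z : K) ^ d = 1 := by
        have := congrArg (fun w : Kˣ => (w : K)) hz2
        simpa using this
      simp only
      rw [h3, mul_pow, h4, one_mul, CharTwo.add_self_eq_zero]
    · intro z hz w hw h
      have h' : (1 + (z : K)) = (1 + (w : K)) := inv_injective h
      exact Units.ext (add_left_cancel h')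
  have h3 : (Finset.univ.filter (fun z : Kˣ => z ^ d = 1)).card ≤
      ((Finset.univ.filter (fun z : Kˣ => z ^ d = 1)).erase 1).card + 1 := by
    have := Finset.pred_card_le_card_erase (s := Finset.univ.filter (fun z : Kˣ => z ^ d = 1))
      (a := 1)
    omega
  omega

/-- `D` has at least `|K| / 2 - 1` elements. -/
theorem card_D [Fintype K] [DecidableEq K] [CharP K 2] {d : ℕ} (hA : APN (fun x : K => x ^ d)) :
    ∃ T : Finset K, (∀ t ∈ T, D K d t) ∧ Fintype.card K ≤ 2 * T.card + 2 := by
  set I : Finset K := Finset.univ.image (fun x : K => (x + 1) ^ d + x ^ d) with hI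
  have h1 : Fintype.card K ≤ 2 * I.card := by
    rw [← Finset.card_univ]
    exact Finset.card_le_mul_card_image _ 2 (fun b _ => hA 1 b one_ne_zero)
  refine ⟨(I.erase ((0 + 1) ^ d + 0 ^ d)).image (fun b => 1 + b), ?_, ?_⟩
  · intro t ht
    rw [Finset.mem_image] at ht
    obtain ⟨b, hb, rfl⟩ := ht
    rw [Finset.mem_erase, hI, Finset.mem_image] at hb
    obtain ⟨hb1, x, _, rfl⟩ := hb
    have hx0 : x ≠ 0 := by
      rintro rfl; exact hb1 rfl
    have hx1 : x ≠ 1 := by
      rintro rfl
      apply hb1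
      rw [CharTwo.add_self_eq_zero, zero_add, add_comm]
    refine ⟨1, x, one_ne_zero, hx0, Ne.symm hx1, ?_⟩
    rw [one_pow, add_comm 1 x]; ring
  · rw [Finset.card_image_of_injective _ (add_right_injective (1 : K))]
    have := Finset.pred_card_le_card_erase (s := I) (a := ((0 + 1) ^ d + 0 ^ d : K))
    omega

/-- Every nonzero element lies in `D`, for an APN power function. -/
theorem mem_D [Fintype K] [DecidableEq K] [CharP K 2] {n d : ℕ} (hn : 3 ≤ n)
    (hK : Fintype.card K = 2 ^ n)
    (hA : APN (fun x : K => x ^ d)) {u : K} (hu : u ≠ 0) : D K d u := by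
  classical
  obtain ⟨T, hT, hTc⟩ := card_D hA
  -- the group of `d`-th powers
  set φ : Kˣ →* Kˣ := powMonoidHom d with hφ
  have hker : Nat.card φ.ker ≤ 3 := by
    have h1 := card_kernel hA
    have h2 : Nat.card φ.ker = (Finset.univ.filter (fun z : Kˣ => z ^ d = 1)).card := by
      rw [Nat.card_eq_fintype_card, Fintype.card_subtype]
      congr 1
      ext z
      simp [hφ, MonoidHom.mem_ker]
    omega
  have hcardK : Nat.card Kˣ = 2 ^ n - 1 := by
    rw [Nat.card_eq_fintype_card, Fintype.card_units, hK]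
  have hprod : Nat.card φ.ker * Nat.card φ.range = 2 ^ n - 1 := by
    rw [← hcardK, ← Subgroup.card_mul_index φ.ker, Subgroup.index_ker]
  have hpos : 8 ≤ 2 ^ n := by
    calc 8 = 2 ^ 3 := by norm_num
      _ ≤ 2 ^ n := Nat.pow_le_pow_right (by norm_num) hn
  have heven : 2 ^ n % 2 = 0 := by
    obtain ⟨m, rfl⟩ : ∃ m, n = m + 1 := ⟨n - 1, by omega⟩
    rw [pow_succ]; omega
  have hkpos : 0 < Nat.card φ.ker := Nat.card_pos
  -- a nonzero element of `D` outside a given small set
  have hbig : ∀ S : Finset K, 2 * S.card + 2 < 2 ^ n → ∃ w, D K d w ∧ w ∉ S := by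
    intro S hS
    by_contra hcon
    push Not at hcon
    have : T ⊆ S := fun t ht => hcon t (hT t ht)
    have := Finset.card_le_card this
    omega
  have hDmul : ∀ (w : K) (g : Kˣ), g ∈ φ.range → D K d w → D K d ((g : K) * w) := by
    rintro w g ⟨l, rfl⟩ hw
    have := D_mul (l : K) l.ne_zero hw
    simpa [hφ] using this
  interval_cases hk : Nat.card φ.ker
  · -- permutation case
    obtain ⟨w, hw, hw0⟩ := hbig {0} (by simp; omega)
    have hw0' : w ≠ 0 := by simpa using hw0
    have htop : φ.range = ⊤ := by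
      apply Subgroup.eq_top_of_card_eq
      rw [hcardK]; omega
    have h := hDmul w (Units.mk0 u hu * (Units.mk0 w hw0')⁻¹) (by rw [htop]; trivial) hw
    have he : ((Units.mk0 u hu * (Units.mk0 w hw0')⁻¹ : Kˣ) : K) * w = u := by
      simp [hw0']
    rwa [he] at h
  · omega
  · -- three-to-one case
    have hn4 : 16 ≤ 2 ^ n := by
      rcases Nat.lt_or_ge n 4 with h4 | h4
      · have : n = 3 := by omega
        subst this
        omega
      · calc 16 = 2 ^ 4 := by norm_num
          _ ≤ 2 ^ n := Nat.pow_le_pow_right (by norm_num) h4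
    -- a primitive cube root of unity
    obtain ⟨ω, hω1, hω3⟩ : ∃ ω : Kˣ, ω ≠ 1 ∧ ω ^ 3 = 1 ∧ ω ^ d = 1 := by
      have : Fact (Nat.Prime 3) := ⟨Nat.prime_three⟩
      obtain ⟨z, hz⟩ := exists_prime_orderOf_dvd_card' (G := φ.ker) 3 (by rw [hk])
      have h1 : z ^ 3 = 1 := by rw [← hz]; exact pow_orderOf_eq_one z
      have h2 : z ≠ 1 := by
        rintro rfl
        simp at hz
      refine ⟨z.1, fun h => h2 (Subtype.ext h), ?_, ?_⟩
      · have := congrArg Subtype.val h1
        simpa using this
      · have := z.2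
        rw [MonoidHom.mem_ker] at this
        simpa [hφ] using this
    obtain ⟨hω3, hωd⟩ := hω3
    have hωK : (ω : K) ≠ 1 := fun h => hω1 (Units.ext h)
    have hquad : (ω : K) ^ 2 + ω + 1 = 0 := by
      have h3 : (ω : K) ^ 3 = 1 := by
        have := congrArg (fun w : Kˣ => (w : K)) hω3
        simpa using this
      have h4 : ((ω : K) - 1) * ((ω : K) ^ 2 + ω + 1) = 0 := by
        linear_combination h3
      rcases mul_eq_zero.1 h4 with h5 | h5
      · exact absurd (sub_eq_zero.1 h5) hωK
      · exact h5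
    have hωd' : (ω : K) ^ d = 1 := by
      have := congrArg (fun w : Kˣ => (w : K)) hωd
      simpa using this
    have hD1 : D K d 1 := by
      refine ⟨1, ω, one_ne_zero, ω.ne_zero, Ne.symm hωK, ?_⟩
      have h5 : (1 : K) + ω = (ω : K) ^ 2 := by
        have h6 : (1 : K) + 1 = 0 := CharTwo.add_self_eq_zero 1
        have h7 : (ω : K) + ω = 0 := CharTwo.add_self_eq_zero _
        linear_combination h6 * (1 : K) + h7 - hquad
      rw [h5, ← pow_mul, mul_comm 2 d, pow_mul, hωd', one_pow, one_pow,
        CharTwo.add_self_eq_zero, zero_add]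
    -- an element of `D` that is not a `d`-th power
    have hrange : Nat.card φ.range * 3 = 2 ^ n - 1 := by omega
    set R : Finset K := insert 0 ((Finset.univ.filter (fun g : Kˣ => g ∈ φ.range)).image
      (fun g : Kˣ => (g : K))) with hR
    have hRc : R.card ≤ Nat.card φ.range + 1 := by
      refine (Finset.card_insert_le _ _).trans ?_
      have h1 : ((Finset.univ.filter (fun g : Kˣ => g ∈ φ.range)).image
          (fun g : Kˣ => (g : K))).card ≤ (Finset.univ.filter (fun g : Kˣ => g ∈ φ.range)).card :=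
        Finset.card_image_le
      have h2 : (Finset.univ.filter (fun g : Kˣ => g ∈ φ.range)).card = Nat.card φ.range := by
        rw [Nat.card_eq_fintype_card, Fintype.card_subtype]
      omega
    obtain ⟨w, hw, hwR⟩ := hbig R (by omega)
    rw [hR, Finset.mem_insert, not_or] at hwR
    obtain ⟨hw0, hwR⟩ := hwR
    set W : Kˣ := Units.mk0 w hw0 with hW
    have hWr : W ∉ φ.range := by
      intro h
      apply hwR
      rw [Finset.mem_image]
      exact ⟨W, by simpa using h, rfl⟩
    have hquot : Nat.card (Kˣ ⧸ φ.range) = 3 := by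
      have h1 := Subgroup.card_mul_index φ.range
      rw [hcardK] at h1
      have h2 : 0 < Nat.card φ.range := Nat.card_pos
      have h3 : Nat.card φ.range * φ.range.index = Nat.card φ.range * 3 := by
        rw [h1, hrange]
      exact Nat.eq_of_mul_eq_mul_left h2 h3
    have hq1 : (QuotientGroup.mk W : Kˣ ⧸ φ.range) ≠ 1 := by
      intro h
      exact hWr ((QuotientGroup.eq_one_iff W).1 h)
    have : Fact (Nat.Prime 3) := ⟨Nat.prime_three⟩
    obtain ⟨k, hk3⟩ := mem_powers_of_prime_card hquot
      (g' := (QuotientGroup.mk (Units.mk0 u hu) : Kˣ ⧸ φ.range)) hq1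
    have hq3 : (QuotientGroup.mk W : Kˣ ⧸ φ.range) ^ 3 = 1 := by
      rw [← hquot]; exact pow_card_eq_one'
    have hk' : (QuotientGroup.mk W : Kˣ ⧸ φ.range) ^ (k % 3) =
        QuotientGroup.mk (Units.mk0 u hu) := by
      rw [← hk3]
      simp only
      conv_rhs => rw [← Nat.div_add_mod k 3, pow_add, pow_mul, hq3, one_pow, one_mul]
    have hlt : k % 3 < 3 := Nat.mod_lt _ (by norm_num)
    have hfin : ∀ (c : Kˣ), D K d (c : K) →
        (QuotientGroup.mk c : Kˣ ⧸ φ.range) = QuotientGroup.mk (Units.mk0 u hu) → D K d u := by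
      intro c hc h
      have h1 : c⁻¹ * Units.mk0 u hu ∈ φ.range := QuotientGroup.eq.1 h
      have h2 := hDmul (c : K) _ h1 hc
      have h3 : ((c⁻¹ * Units.mk0 u hu : Kˣ) : K) * (c : K) = u := by
        rw [mul_comm c⁻¹, Units.val_mul, mul_assoc, Units.inv_mul, mul_one, Units.val_mk0]
      rwa [h3] at h2
    interval_cases hk2 : k % 3
    · exact hfin 1 (by simpa using hD1) (by simpa using hk')
    · exact hfin W (by simpa [hW] using hw) (by simpa using hk')
    · refine hfin (W ^ 2) ?_ (by simpa using hk')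
      have := D_sq hw
      simpa [hW] using this

/-- For an APN power function `x ^ d` on a field with `2 ^ n` elements, `n ≥ 3`, changing the value
at `0` destroys the APN property. -/
theorem result (K : Type) [Field K] [Fintype K] [DecidableEq K] (n d : ℕ) (hn : 3 ≤ n)
    (hK : Fintype.card K = 2 ^ n) (hA : APN (fun x : K => x ^ d)) (u : K) (hu : u ≠ 0) :
    ¬ APN (fun x : K => x ^ d + if x = 0 then u else 0) := by
  have hchar : CharP K 2 := by
    obtain ⟨p, hp⟩ := CharP.exists K
    obtain ⟨m, hp', hm⟩ := FiniteField.card K p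
    have h2 : p = 2 := by
      have h3 : p ∣ 2 ^ n := by
        rw [← hK, hm]
        exact dvd_pow_self p m.ne_zero
      exact (Nat.prime_dvd_prime_iff_eq hp' Nat.prime_two).1 (hp'.dvd_of_dvd_pow h3)
    rw [h2] at hp
    exact hp
  have hd : d ≠ 0 := by
    rintro rfl
    have h1 := hA 1 0 one_ne_zero
    have h2 : (Finset.univ.filter (fun x : K => (x + 1) ^ 0 + x ^ 0 = 0)) = Finset.univ := by
      ext x
      simp [CharTwo.add_self_eq_zero]
    have h3 : (Finset.univ.filter (fun x : K => (x + 1) ^ 0 + x ^ 0 = 0)).card ≤ 2 := h1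
    rw [h2, Finset.card_univ, hK] at h3
    have : 8 ≤ 2 ^ n := by
      calc 8 = 2 ^ 3 := by norm_num
        _ ≤ 2 ^ n := Nat.pow_le_pow_right (by norm_num) hn
    omega
  exact not_APN_of_D hd (mem_D hn hK hA hu)

end Pool.Agent.Results.MP_027baa_co.PowerAtZero
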